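import Mathlib

set_option autoImplicit false

/-! # Project PS (helper378): integers that are not a small square plus a prime -/

namespace Pool.Agent.H378R2.PS

/-- the logarithm of the bound for the small primes -/
noncomputable def V1 (y : ℝ) : ℝ :=
  Real.log y * Real.log (Real.log (Real.log y)) / (20 * Real.log (Real.log y))

end Pool.Agent.H378R2.PS
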