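import Pool.Agent.H256R2.SC.G1
import Pool.Agent.H378R2.PS.Ana

set_option autoImplicit false
set_option linter.unusedVariables false

/-! # Numerical facts (project PS, helper378) -/

namespace Pool.Agent.H378R2.PS

open Finset Filter
open Pool.Agent.H256R2.SC.LG (ana exists_crt count_Ioc ev_log half_log log_sq_le log10_lt)

/-- the bound -/
noncomputable def FG (X : ℝ) : ℝ :=
  Real.log X * (Real.log (Real.log X)) ^ 3 * Real.log (Real.log (Real.log (Real.log X))) /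
    (Real.log (Real.log (Real.log X))) ^ 2

/-- all inequalities needed -/
theorem ana3 {c C y₀ : ℝ} (hc : 0 < c) (hC : 0 < C) : ∃ c' : ℝ, 0 < c' ∧ ∃ X₀ : ℝ, ∀ X : ℝ,
    X₀ ≤ X → ∀ y F : ℝ, y = Real.log X / 10 → F = c' * FG X → ∀ L : ℕ, L = ⌊F⌋₊ →
    1 ≤ X ∧ y₀ ≤ y ∧ 5 ≤ y ∧ y ≤ L ∧ (L : ℝ) ≤ y * (Real.log y) ^ 4 ∧
      2 * (C * L * (Real.log (Real.log y)) ^ 2 /
        ((Real.log y) ^ 3 * Real.log (Real.log (Real.log y)))) + 4 ≤ c * Real.log X ∧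
      2 * (L : ℝ) + 1 ≤ (Real.log X) ^ 2 ∧ y ≤ (Real.log X) ^ 2 ∧
      4 * (primorial ⌊y⌋₊ : ℝ) ≤ X ^ (1 / 2 : ℝ) ∧ 2 ≤ X ^ (1 / 10 : ℝ) ∧
      X ^ (1 / 10 : ℝ) ≤ X / 4 ∧ y ≤ X / 4 ∧ (L : ℝ) ^ 2 ≤ X / 4 ∧ 0 ≤ F ∧ 2 ≤ V1 y := by
  refine ⟨c / (64 * C), by positivity, ?_⟩
  obtain ⟨c', hc'⟩ : ∃ c' : ℝ, c' = c / (64 * C) := ⟨_, rfl⟩
  rw [← hc']
  have hc'0 : 0 < c' := by rw [hc']; positivity
  obtain ⟨c₃, hc₃, X₃, hX₃⟩ := ana (y₀ := y₀) one_pos one_pos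
  obtain ⟨X₄, hX₄⟩ := ev_pows c'
  obtain ⟨M, hM⟩ : ∃ M : ℝ, M = 100 + 320 * c' + 16 / c' + 8 / c + |10 * y₀| := ⟨_, rfl⟩
  obtain ⟨X₀, hX₀⟩ := ev_log M
  refine ⟨max X₀ (max X₃ X₄), fun X hX y F hy hF L hL => ?_⟩
  obtain ⟨hX1, m1, m2, m3, m4⟩ := hX₀ X ((le_max_left _ _).trans hX)
  obtain ⟨a1, a2, a3, a4, a5, a6, a7, a8, a9, a10, a11, a12, a13, a14, a15, a16, a17⟩ :=
    hX₃ X (((le_max_left _ _).trans (le_max_right _ _)).trans hX) y _ hy rfl _ rfl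
  obtain ⟨b1, b2⟩ := hX₄ X (((le_max_right _ _).trans (le_max_right _ _)).trans hX)
  rw [abs_of_pos hc'0] at b1
  have q0 : 0 < 16 / c' := by positivity
  have q0' : 0 < 8 / c := by positivity
  have q0'' : 0 ≤ |10 * y₀| := abs_nonneg _
  have M1 : 100 ≤ M := by rw [hM]; linarith
  have M2 : 320 * c' ≤ M := by rw [hM]; linarith
  have M3 : 16 / c' ≤ M := by rw [hM]; linarith
  have M4 : 8 / c ≤ M := by rw [hM]; linarith
  clear hX₃ hX₄ hX₀ hM a1 a2 a4 a5 a6 a7 a8 a9 a15 a16 a17 q0 q0' q0'' hX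
  obtain ⟨l1, hl1⟩ : ∃ l1, l1 = Real.log X := ⟨_, rfl⟩
  obtain ⟨l2, hl2⟩ : ∃ l2, l2 = Real.log l1 := ⟨_, rfl⟩
  obtain ⟨l3, hl3⟩ : ∃ l3, l3 = Real.log l2 := ⟨_, rfl⟩
  obtain ⟨l4, hl4⟩ : ∃ l4, l4 = Real.log l3 := ⟨_, rfl⟩
  have hff : FG X = l1 * l2 ^ 3 * l4 / l3 ^ 2 := by
    unfold FG
    rw [hl4, hl3, hl2, hl1]
  rw [← hl1, ← hl2, ← hl3, ← hl4] at m4
  rw [← hl1, ← hl2, ← hl3] at m3
  rw [← hl1, ← hl2] at m2
  rw [← hl1] at m1
  rw [← hl1, ← hl2] at b1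
  rw [← hl1] at b2 hy
  rw [← hl1]
  have p1 : 0 < l1 := by linarith
  have p2 : 0 < l2 := by linarith
  have p3 : 0 < l3 := by linarith
  have p4 : 0 < l4 := by linarith
  have hlog10 := log10_lt
  -- logs of y
  have y1 : l2 / 2 ≤ Real.log y := by
    rw [hl2]
    exact half_log (by rw [hy]) (by rw [← hl2]; linarith) p1
  have y2 : l3 / 2 ≤ Real.log (Real.log y) := by
    rw [hl3]
    exact half_log (by linarith) (by rw [← hl3]; linarith) p2
  have y3 : l4 / 2 ≤ Real.log (Real.log (Real.log y)) := by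
    rw [hl4]
    exact half_log (by linarith) (by rw [← hl4]; linarith) p3
  have hypos : 0 < y := by rw [hy]; positivity
  have hlogy : 0 < Real.log y := by linarith
  have hloglogy : 0 < Real.log (Real.log y) := by linarith
  have hylog : Real.log y ≤ l2 := by
    rw [hl2]
    apply Real.log_le_log hypos
    rw [hy]
    linarith
  have y2' : Real.log (Real.log y) ≤ l3 := by
    rw [hl3]
    exact Real.log_le_log hlogy hylog
  have q1 : l3 ^ 2 ≤ 4 * l2 := by rw [hl3]; exact log_sq_le (by linarith)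
  have q3 : l4 ≤ l3 := by
    have := Real.log_le_sub_one_of_pos p3
    rw [← hl4] at this
    linarith
  have hF0 : 0 ≤ F := by
    rw [hF, hff]
    positivity
  have hLF : (L : ℝ) ≤ F := by
    rw [hL]
    exact Nat.floor_le hF0
  have hFL : F - 1 ≤ L := by
    rw [hL]
    have := Nat.lt_floor_add_one F
    linarith
  -- lower bound for F
  have F1 : l1 ≤ F := by
    rw [hF, hff]
    have h1 : l1 * l2 ^ 3 * l4 / (4 * l2) ≤ l1 * l2 ^ 3 * l4 / l3 ^ 2 :=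
      div_le_div_of_nonneg_left (by positivity) (by positivity) q1
    have h2 : l1 * l2 ^ 3 * l4 / (4 * l2) = l1 * (l2 ^ 2 * l4) / 4 := by
      field_simp
    have h3 : 16 ≤ c' * M := by
      rw [div_le_iff₀ hc'0] at M3
      linarith
    have h4 : 16 ≤ c' * l2 := h3.trans (by gcongr)
    have h5 : 4 ≤ c' * (l2 ^ 2 * l4) := by
      have e1 : 1 ≤ l2 * l4 := by nlinarith
      calc (4:ℝ) ≤ 16 * 1 := by norm_num
        _ ≤ (c' * l2) * (l2 * l4) := mul_le_mul h4 e1 (by norm_num) (by positivity)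
        _ = c' * (l2 ^ 2 * l4) := by ring
    calc l1 = l1 * 4 / 4 := by ring
      _ ≤ l1 * (c' * (l2 ^ 2 * l4)) / 4 := by gcongr
      _ = c' * (l1 * (l2 ^ 2 * l4) / 4) := by ring
      _ ≤ c' * (l1 * l2 ^ 3 * l4 / l3 ^ 2) := by
        rw [← h2]
        gcongr
  -- upper bound for F
  have F2 : F ≤ c' * (l1 * l2 ^ 3) := by
    rw [hF, hff]
    apply mul_le_mul_of_nonneg_left _ hc'0.le
    rw [div_le_iff₀ (by positivity)]
    have e1 : l4 ≤ l3 ^ 2 := by nlinarith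
    exact mul_le_mul_of_nonneg_left e1 (by positivity)
  have F3 : 8 * F ≤ l1 ^ 2 - 8 * l1 := by
    have e1 : l2 ^ 3 ≤ l2 ^ 4 := pow_le_pow_right₀ (by linarith) (by norm_num)
    calc 8 * F ≤ 8 * (c' * (l1 * l2 ^ 3)) := by linarith
      _ ≤ 8 * (c' * (l1 * l2 ^ 4)) := by gcongr
      _ = l1 * (8 * c' * l2 ^ 4) := by ring
      _ ≤ l1 * (l1 - 8) := by gcongr; linarith
      _ = _ := by ring
  refine ⟨hX1, a3, ?_, ?_, ?_, ?_, ?_, ?_, a11, a12, a13, a14, ?_, hF0, ?_⟩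
  · rw [hy]; linarith
  · rw [hy]; linarith
  · -- L ≤ y (log y)^4
    refine hLF.trans (F2.trans ?_)
    have h1 : (l2 / 2) ^ 4 ≤ (Real.log y) ^ 4 := by gcongr
    calc c' * (l1 * l2 ^ 3) = l1 * l2 ^ 3 * (160 * c') / 160 := by ring
      _ ≤ l1 * l2 ^ 3 * l2 / 160 := by
        have : 160 * c' ≤ l2 := by linarith
        gcongr
      _ = l1 / 10 * (l2 / 2) ^ 4 := by ring
      _ ≤ l1 / 10 * (Real.log y) ^ 4 := by gcongr
      _ = y * (Real.log y) ^ 4 := by rw [hy]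
  · -- number of survivors
    have h1 : C * L * (Real.log (Real.log y)) ^ 2 /
        ((Real.log y) ^ 3 * Real.log (Real.log (Real.log y))) ≤
        C * F * l3 ^ 2 / ((l2 / 2) ^ 3 * (l4 / 2)) := by
      gcongr
    have h2 : C * F * l3 ^ 2 / ((l2 / 2) ^ 3 * (l4 / 2)) = 16 * C * c' * l1 := by
      rw [hF, hff]
      field_simp
      ring
    have h3 : 16 * C * c' * l1 = c * l1 / 4 := by
      rw [hc']
      field_simp
      ring
    have h4 : 8 ≤ c * l1 := by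
      rw [div_le_iff₀ hc] at M4
      calc 8 ≤ M * c := M4
        _ ≤ l1 * c := by gcongr
        _ = c * l1 := by ring
    rw [h2, h3] at h1
    linarith
  · nlinarith
  · rw [hy]; nlinarith
  · have h1 : (L : ℝ) ≤ l1 ^ 2 / 8 := by linarith
    calc (L : ℝ) ^ 2 ≤ (l1 ^ 2 / 8) ^ 2 := by gcongr
      _ = l1 ^ 4 / 64 := by ring
      _ ≤ X / 64 := by gcongr
      _ ≤ X / 4 := by linarith
  · unfold V1
    have h0 : 0 < Real.log (Real.log (Real.log y)) := by linarith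
    have h0' : 0 ≤ Real.log y * Real.log (Real.log (Real.log y)) := by positivity
    have h1 : l2 / 2 * (l4 / 2) / (20 * l3) ≤
        Real.log y * Real.log (Real.log (Real.log y)) / (20 * Real.log (Real.log y)) := by
      gcongr
    refine le_trans ?_ h1
    rw [le_div_iff₀ (by positivity)]
    have h2 : 160 * l3 ≤ l2 * l4 := by
      have e1 : l3 * l3 ≤ 4 * l2 := by nlinarith
      have e2 : l3 * l3 * l4 ≤ 4 * l2 * l4 := by gcongr
      have e3 : 640 ≤ l3 * l4 := by nlinarith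
      have e4 : 640 * l3 ≤ l3 * l4 * l3 := by gcongr
      nlinarith
    linarith

end Pool.Agent.H378R2.PS
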