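import Pool.Agent.H378R2.PS.P0b

set_option autoImplicit false
set_option linter.unusedVariables false

/-! # P0: the sieve with two or more classes (project PS, helper378) -/

namespace Pool.Agent.H378R2.PS

open Finset P0x Pool.Agent.Erdos456.SieveAux

theorem P0x.sum_SF_mono {t : ℕ → ℝ} (ht : ∀ p, 0 ≤ t p) {R R' M : ℕ} (h : R ≤ R') :
    ∑ l ∈ SF R M, Tw t l / l ≤ ∑ l ∈ SF R' M, Tw t l / l := by
  apply Finset.sum_le_sum_of_subset_of_nonneg
  · intro l hl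
    unfold SF at hl ⊢
    rw [mem_filter, mem_Icc] at hl ⊢
    exact ⟨⟨hl.1.1, hl.1.2.trans h⟩, hl.2⟩
  · intro l _ _
    exact div_nonneg (Tw_nonneg ht l) (Nat.cast_nonneg _)

theorem P0x.U_nonneg (X M : ℕ) : 0 ≤ U X M := Finset.sum_nonneg fun _ _ => by positivity

/-- lower bound for the sum over the moduli -/
theorem P0x.big_sum (j : ℕ) (hj : j = 1 ∨ j = 2) (X w M : ℕ) (hw : w ≤ X) (hX : 1 ≤ X)
    (hM : ∀ p, p.Prime → ¬ p ∣ M → 17 ≤ p) :
    (U X M) ^ 2 * (U w M) ^ j ≤ (1 + C0) ^ 3 *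
      ∑ l ∈ SF (X ^ 4) M, Tw (fun p => if p ≤ w then 2 + (j : ℝ) else 2) l / l := by
  have hC := C0_pos
  have hUX := U_nonneg X M
  have hUw := U_nonneg w M
  -- first step
  have e0 : ∑ l ∈ SF X M, Tw (fun _ => 1) l / l = U X M := by
    unfold U Tw
    simp
  have s1 := mul_step X X M (fun _ => 1) (fun _ => 2) (fun _ => by norm_num)
    (fun _ _ => by norm_num) (fun _ => by norm_num) hM
  rw [e0] at s1
  have s2 := mul_step w (X * X) M (fun _ => 2) (fun p => if p ≤ w then 3 else 2)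
    (fun _ => by norm_num) (fun p hp => by rw [if_pos hp]; norm_num)
    (fun p => by split_ifs <;> norm_num) hM
  obtain ⟨A, hA⟩ : ∃ A, A = ∑ m ∈ SF (X * X) M, Tw (fun _ => 2) m / m := ⟨_, rfl⟩
  obtain ⟨B, hB⟩ : ∃ B, B = ∑ m ∈ SF (w * (X * X)) M, Tw (fun p => if p ≤ w then 3 else 2) m / m :=
    ⟨_, rfl⟩
  rw [← hA] at s1 s2
  rw [← hB] at s2
  have hB0 : 0 ≤ B := by
    rw [hB]
    apply Finset.sum_nonneg
    intro m _
    exact div_nonneg (Tw_nonneg (fun p => by split_ifs <;> norm_num) m) (Nat.cast_nonneg _)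
  have k1 : (U X M) ^ 2 * U w M ≤ C0 * (C0 * B) := by
    calc (U X M) ^ 2 * U w M = (U X M * U X M) * U w M := by ring
      _ ≤ (C0 * A) * U w M := mul_le_mul_of_nonneg_right s1 hUw
      _ = C0 * (U w M * A) := by ring
      _ ≤ C0 * (C0 * B) := mul_le_mul_of_nonneg_left s2 hC.le
  rcases hj with rfl | rfl
  · have hlev : w * (X * X) ≤ X ^ 4 := by
      calc w * (X * X) ≤ X * (X * X) := Nat.mul_le_mul_right _ hw
        _ = X ^ 3 := by ring
        _ ≤ X ^ 4 := Nat.pow_le_pow_right hX (by norm_num)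
    have e1 : (fun p => if p ≤ w then 2 + ((1 : ℕ) : ℝ) else 2) =
        (fun p => if p ≤ w then (3 : ℝ) else 2) := by
      funext p
      split_ifs <;> norm_num
    rw [e1, pow_one]
    have m1 := sum_SF_mono (t := fun p => if p ≤ w then (3 : ℝ) else 2)
      (fun p => by split_ifs <;> norm_num) (M := M) hlev
    rw [← hB] at m1
    obtain ⟨D, hD⟩ : ∃ D, D = ∑ l ∈ SF (X ^ 4) M, Tw (fun p => if p ≤ w then (3 : ℝ) else 2) l / l :=
      ⟨_, rfl⟩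
    rw [← hD] at m1 ⊢
    have hD0 : 0 ≤ D := hB0.trans m1
    calc (U X M) ^ 2 * U w M ≤ C0 * (C0 * B) := k1
      _ ≤ C0 * (C0 * D) := by gcongr
      _ = (C0 * C0) * D := by ring
      _ ≤ (1 + C0) ^ 3 * D := by
          apply mul_le_mul_of_nonneg_right _ hD0
          nlinarith [mul_pos hC hC, mul_pos (mul_pos hC hC) hC]
  · have s3 := mul_step w (w * (X * X)) M (fun p => if p ≤ w then 3 else 2)
      (fun p => if p ≤ w then 4 else 2)
      (fun p => by constructor <;> split_ifs <;> norm_num)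
      (fun p hp => by rw [if_pos hp, if_pos hp]; norm_num)
      (fun p => by split_ifs <;> norm_num) hM
    rw [← hB] at s3
    have hlev : w * (w * (X * X)) ≤ X ^ 4 := by
      calc w * (w * (X * X)) ≤ X * (X * (X * X)) :=
            Nat.mul_le_mul hw (Nat.mul_le_mul_right _ hw)
        _ = X ^ 4 := by ring
    have e1 : (fun p => if p ≤ w then 2 + ((2 : ℕ) : ℝ) else 2) =
        (fun p => if p ≤ w then (4 : ℝ) else 2) := by
      funext p
      split_ifs <;> norm_num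
    rw [e1]
    have m1 := sum_SF_mono (t := fun p => if p ≤ w then (4 : ℝ) else 2)
      (fun p => by split_ifs <;> norm_num) (M := M) hlev
    obtain ⟨D, hD⟩ : ∃ D, D = ∑ l ∈ SF (X ^ 4) M, Tw (fun p => if p ≤ w then (4 : ℝ) else 2) l / l :=
      ⟨_, rfl⟩
    rw [← hD] at m1 ⊢
    have k2 : U w M * B ≤ C0 * D := s3.trans (mul_le_mul_of_nonneg_left m1 hC.le)
    have hD0 : 0 ≤ D := by
      rw [hD]
      apply Finset.sum_nonneg
      intro m _
      exact div_nonneg (Tw_nonneg (fun p => by split_ifs <;> norm_num) m) (Nat.cast_nonneg _)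
    calc (U X M) ^ 2 * (U w M) ^ 2 = ((U X M) ^ 2 * U w M) * U w M := by ring
      _ ≤ (C0 * (C0 * B)) * U w M := mul_le_mul_of_nonneg_right k1 hUw
      _ = C0 * C0 * (U w M * B) := by ring
      _ ≤ C0 * C0 * (C0 * D) := mul_le_mul_of_nonneg_left k2 (by positivity)
      _ = C0 ^ 3 * D := by ring
      _ ≤ (1 + C0) ^ 3 * D := by gcongr; linarith

/-- P0: Selberg's sieve, residue classes `E p`, `2 + j` of them for `p ≤ w`, two for `p > w` -/
theorem sieve_gen (j : ℕ) (hj : j = 1 ∨ j = 2) : ∃ C : ℝ, 0 < C ∧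
    ∀ (Y M w : ℕ) (E : ℕ → Finset ℕ) (S : Finset ℕ), M ≠ 0 →
    (∀ p : ℕ, p.Prime → ¬ p ∣ M → 17 ≤ p ∧ E p ⊆ Finset.range p ∧
      (p ≤ w → (E p).card = 2 + j) ∧ (w < p → (E p).card = 2)) →
    2 ≤ w → (w : ℝ) ≤ (Y : ℝ) ^ (1 / 64 : ℝ) → S ⊆ Finset.Icc 1 Y →
    (∀ l ∈ S, ∀ p : ℕ, p.Prime → ¬ p ∣ M → (p : ℝ) ≤ (Y : ℝ) ^ (1 / 8 : ℝ) → l % p ∉ E p) →
    (S.card : ℝ) ≤ C * ((M : ℝ) / (M.totient : ℝ)) ^ 4 * Y / ((Real.log Y) ^ 2 * (Real.log w) ^ j) := by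
  have hC := C0_pos
  refine ⟨16 * 64 ^ 2 * (1 + C0) ^ 3 + 4096, by positivity, ?_⟩
  intro Y M w E S hM0 hE hw hwY hSY hSE
  have hj12 : 1 ≤ j ∧ j ≤ 2 := by rcases hj with rfl | rfl <;> omega
  have hwr : (2 : ℝ) ≤ w := by exact_mod_cast hw
  have hY1 : 1 ≤ Y := by
    rcases Nat.eq_zero_or_pos Y with h | h
    · subst h
      rw [Nat.cast_zero, Real.zero_rpow (by norm_num)] at hwY
      linarith
    · exact h
  have hY0 : (0 : ℝ) < Y := by exact_mod_cast hY1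
  have hY1r : (1 : ℝ) ≤ Y := by exact_mod_cast hY1
  have hwY' : (w : ℝ) ≤ Y := by
    calc (w : ℝ) ≤ (Y : ℝ) ^ (1 / 64 : ℝ) := hwY
      _ ≤ (Y : ℝ) ^ (1 : ℝ) := Real.rpow_le_rpow_of_exponent_le hY1r (by norm_num)
      _ = Y := Real.rpow_one _
  have hlogY : 0 < Real.log Y := Real.log_pos (by linarith)
  have hlogw : 0 < Real.log w := Real.log_pos (by linarith)
  have hlogwY : Real.log w ≤ Real.log Y := Real.log_le_log (by linarith) hwY'
  obtain ⟨X, hX⟩ : ∃ X : ℕ, X = ⌊(Y : ℝ) ^ ((1 : ℝ) / 64)⌋₊ := ⟨_, rfl⟩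
  have hXle : (X : ℝ) ≤ (Y : ℝ) ^ ((1 : ℝ) / 64) := by rw [hX]; exact Nat.floor_le (by positivity)
  have hXlt : (Y : ℝ) ^ ((1 : ℝ) / 64) < X + 1 := by rw [hX]; exact Nat.lt_floor_add_one _
  have hwX : w ≤ X := by rw [hX]; exact Nat.le_floor hwY
  have hX1 : 1 ≤ X := by omega
  have hlogX : Real.log Y / 64 ≤ Real.log (X + 1) := by
    have h1 := Real.log_le_log (by positivity) hXlt.le
    rw [Real.log_rpow hY0] at h1
    linarith
  have hM : ∀ p, p.Prime → ¬ p ∣ M → 17 ≤ p := fun p hp hpM => (hE p hp hpM).1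
  have hS4 : Sys4 M E := by
    refine ⟨hM, fun p hp hpM => (hE p hp hpM).2.1, fun p hp hpM => ?_, fun p hp hpM => ?_⟩
    · obtain ⟨-, -, h1, h2⟩ := hE p hp hpM
      rcases le_or_gt p w with h | h
      · rw [h1 h]; omega
      · rw [h2 h]; omega
    · obtain ⟨-, -, h1, h2⟩ := hE p hp hpM
      rcases le_or_gt p w with h | h
      · rw [h1 h]; omega
      · rw [h2 h]; omega
  have hpow : ∀ k : ℕ, (X : ℝ) ^ k ≤ (Y : ℝ) ^ ((k : ℝ) / 64) := by
    intro k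
    calc (X : ℝ) ^ k ≤ ((Y : ℝ) ^ ((1 : ℝ) / 64)) ^ k := by gcongr
      _ = (Y : ℝ) ^ ((k : ℝ) / 64) := by
          rw [← Real.rpow_natCast, ← Real.rpow_mul hY0.le]
          congr 1
          ring
  have hX2 : 1 ≤ X ^ 2 := Nat.one_le_pow _ _ hX1
  have h1 := sieve_E4 Y (X ^ 2) M hX2 E hS4 S hSY (by
    intro l hl p hp hpX hpM
    refine hSE l hl p hp hpM ?_
    have e1 : (p : ℝ) ≤ (X : ℝ) ^ 4 := by
      have : p ≤ X ^ 4 := by
        calc p ≤ (X ^ 2) ^ 2 := hpX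
          _ = X ^ 4 := by ring
      exact_mod_cast this
    refine e1.trans ((hpow 4).trans ?_)
    exact Real.rpow_le_rpow_of_exponent_le hY1r (by norm_num))
  have hlev : (X ^ 2) ^ 2 = X ^ 4 := by ring
  rw [hlev] at h1
  obtain ⟨J, hJ⟩ : ∃ J : ℝ, J = JJ (sf4 Y (X ^ 4) M E hS4) (X ^ 4) := ⟨_, rfl⟩
  rw [← hJ] at h1
  have hJpos : 0 < J := by
    rw [hJ]
    exact JJ_pos (X ^ 4) (Nat.one_le_pow _ _ hX1)
  -- lower bound for J
  have h2 := JJ_lower4 (Y := Y) (R := X ^ 4) hS4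
  have h3 := big_sum j hj X w M hwX hX1 hM
  have h4 : ∑ l ∈ SF (X ^ 4) M, Tw (fun p => if p ≤ w then 2 + (j : ℝ) else 2) l / l ≤ J := by
    rw [hJ]
    refine le_trans ?_ h2
    apply Finset.sum_le_sum
    intro l hl
    apply div_le_div_of_nonneg_right _ (Nat.cast_nonneg _)
    unfold Tw
    apply Finset.prod_le_prod
    · intro p _
      split_ifs <;> positivity
    · intro p hp
      have hpp := Nat.prime_of_mem_primeFactors hp
      have hpM : ¬ p ∣ M := by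
        intro hd
        unfold SF at hl
        rw [mem_filter] at hl
        have := Nat.dvd_gcd (Nat.dvd_of_mem_primeFactors hp) hd
        rw [hl.2.2] at this
        exact hpp.one_lt.ne' (Nat.dvd_one.mp this)
      obtain ⟨-, -, g1, g2⟩ := hE p hpp hpM
      split_ifs with h
      · rw [g1 h]; push_cast; exact le_rfl
      · rw [g2 (not_le.mp h)]; push_cast; exact le_rfl
  obtain ⟨G, hG⟩ : ∃ G : ℝ, G = (M : ℝ) / (M.totient : ℝ) := ⟨_, rfl⟩
  rw [← hG]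
  have hG1 : 1 ≤ G := by
    have htot : (0 : ℝ) < Nat.totient M := by
      exact_mod_cast Nat.totient_pos.2 (Nat.pos_of_ne_zero hM0)
    rw [hG, one_le_div htot]
    exact_mod_cast Nat.totient_le M
  have u1 := U_lower X M hM0
  have u2 := U_lower w M hM0
  rw [← hG] at u1 u2
  have hUX := U_nonneg X M
  have hUw := U_nonneg w M
  have u3 : Real.log Y / 64 ≤ 2 * G * U X M := hlogX.trans u1
  have u4 : Real.log w ≤ 2 * G * U w M := by
    refine le_trans ?_ u2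
    exact Real.log_le_log (by linarith) (by linarith)
  have h5 : (Real.log Y) ^ 2 * (Real.log w) ^ j ≤ 16 * 64 ^ 2 * (1 + C0) ^ 3 * G ^ 4 * J := by
    have a1 : (Real.log Y / 64) ^ 2 * (Real.log w) ^ j ≤ (2 * G * U X M) ^ 2 * (2 * G * U w M) ^ j := by
      gcongr
    have a2 : (2 * G * U X M) ^ 2 * (2 * G * U w M) ^ j =
        (2 * G) ^ (2 + j) * ((U X M) ^ 2 * (U w M) ^ j) := by
      rw [mul_pow (2 * G) (U X M), mul_pow (2 * G) (U w M), pow_add]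
      ring
    have a3 : (2 * G) ^ (2 + j) ≤ (2 * G) ^ 4 := pow_le_pow_right₀ (by linarith) (by omega)
    have a4 : 0 ≤ (U X M) ^ 2 * (U w M) ^ j := by positivity
    have a5 : (U X M) ^ 2 * (U w M) ^ j ≤ (1 + C0) ^ 3 * J :=
      h3.trans (mul_le_mul_of_nonneg_left h4 (by positivity))
    calc (Real.log Y) ^ 2 * (Real.log w) ^ j = 64 ^ 2 * ((Real.log Y / 64) ^ 2 * (Real.log w) ^ j) := by
          ring
      _ ≤ 64 ^ 2 * ((2 * G) ^ (2 + j) * ((U X M) ^ 2 * (U w M) ^ j)) := by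
          rw [← a2]; gcongr
      _ ≤ 64 ^ 2 * ((2 * G) ^ 4 * ((1 + C0) ^ 3 * J)) := by gcongr
      _ = _ := by ring
  have hmain : (Y : ℝ) / J ≤
      16 * 64 ^ 2 * (1 + C0) ^ 3 * G ^ 4 * Y / ((Real.log Y) ^ 2 * (Real.log w) ^ j) := by
    rw [div_le_div_iff₀ hJpos (by positivity)]
    calc (Y : ℝ) * ((Real.log Y) ^ 2 * (Real.log w) ^ j)
        ≤ Y * (16 * 64 ^ 2 * (1 + C0) ^ 3 * G ^ 4 * J) := mul_le_mul_of_nonneg_left h5 hY0.le
      _ = _ := by ring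
  -- the error term
  have hlog8 : (Real.log Y) ^ 2 * (Real.log w) ^ j ≤ 4096 * (Y : ℝ) ^ ((1 : ℝ) / 2) := by
    have g1 : Real.log Y ≤ (Y : ℝ) ^ ((1 : ℝ) / 8) / (1 / 8) :=
      Real.log_le_rpow_div hY0.le (by norm_num)
    have g2 : Real.log Y ≤ 8 * (Y : ℝ) ^ ((1 : ℝ) / 8) := by linarith
    have g3 : 1 ≤ 8 * (Y : ℝ) ^ ((1 : ℝ) / 8) := by
      have := Real.one_le_rpow hY1r (show (0:ℝ) ≤ 1 / 8 by norm_num)
      linarith
    calc (Real.log Y) ^ 2 * (Real.log w) ^ j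
        ≤ (8 * (Y : ℝ) ^ ((1 : ℝ) / 8)) ^ 2 * (8 * (Y : ℝ) ^ ((1 : ℝ) / 8)) ^ j := by
          gcongr
          exact hlogwY.trans g2
      _ ≤ (8 * (Y : ℝ) ^ ((1 : ℝ) / 8)) ^ 2 * (8 * (Y : ℝ) ^ ((1 : ℝ) / 8)) ^ 2 := by
          exact mul_le_mul_of_nonneg_left (pow_le_pow_right₀ g3 hj12.2) (by positivity)
      _ = 4096 * ((Y : ℝ) ^ ((1 : ℝ) / 8)) ^ 4 := by ring
      _ = 4096 * (Y : ℝ) ^ ((1 : ℝ) / 2) := by
          rw [← Real.rpow_natCast, ← Real.rpow_mul hY0.le]; norm_num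
  have herr : ((X ^ 2 : ℕ) : ℝ) ^ 12 ≤
      4096 * G ^ 4 * Y / ((Real.log Y) ^ 2 * (Real.log w) ^ j) := by
    rw [le_div_iff₀ (by positivity)]
    have g1 : ((X ^ 2 : ℕ) : ℝ) ^ 12 ≤ (Y : ℝ) ^ ((24 : ℝ) / 64) := by
      have := hpow 24
      push_cast at this ⊢
      calc ((X : ℝ) ^ 2) ^ 12 = (X : ℝ) ^ 24 := by ring
        _ ≤ _ := this
    calc ((X ^ 2 : ℕ) : ℝ) ^ 12 * ((Real.log Y) ^ 2 * (Real.log w) ^ j)
        ≤ (Y : ℝ) ^ ((24 : ℝ) / 64) * (4096 * (Y : ℝ) ^ ((1 : ℝ) / 2)) := by gcongr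
      _ = 4096 * ((Y : ℝ) ^ ((24 : ℝ) / 64) * (Y : ℝ) ^ ((1 : ℝ) / 2)) := by ring
      _ = 4096 * (Y : ℝ) ^ ((7 : ℝ) / 8) := by
          rw [← Real.rpow_add hY0]; norm_num
      _ ≤ 4096 * (Y : ℝ) ^ (1 : ℝ) := by
          exact mul_le_mul_of_nonneg_left
            (Real.rpow_le_rpow_of_exponent_le hY1r (by norm_num)) (by norm_num)
      _ = 4096 * (1 * Y) := by rw [Real.rpow_one]; ring
      _ ≤ 4096 * (G ^ 4 * Y) := by
          have : 1 ≤ G ^ 4 := one_le_pow₀ hG1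
          gcongr
      _ = 4096 * G ^ 4 * Y := by ring
  calc (S.card : ℝ) ≤ (Y : ℝ) / J + ((X ^ 2 : ℕ) : ℝ) ^ 12 := h1
    _ ≤ 16 * 64 ^ 2 * (1 + C0) ^ 3 * G ^ 4 * Y / ((Real.log Y) ^ 2 * (Real.log w) ^ j) +
        4096 * G ^ 4 * Y / ((Real.log Y) ^ 2 * (Real.log w) ^ j) := add_le_add hmain herr
    _ = _ := by ring

end Pool.Agent.H378R2.PS
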