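import Pool.Agent.H378R2.PS.Main
import Pool.Agent.H378R2.PS.P0
import Pool.Agent.H132R2.PS.P1
import Pool.Agent.H201R2.PS.P3
import Pool.Agent.H380R4.PS.P4
import Pool.Agent.H510R2.PS.P2

set_option autoImplicit false

/-! # Theorem A (project PS) -/

namespace Pool.Agent.H378R2.PS

theorem surv_holds : SurvStmt :=
  P4.surv (sieve_four (fun j hj => sieve_gen j hj)) sum_ratio4 smooth8

theorem minus_square :
    ∃ c : ℝ, 0 < c ∧ ∃ X₀ : ℝ, ∀ X : ℝ, X₀ ≤ X → ∀ M : ℝ, X ≤ M →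
    ∃ N : ℕ, M < N ∧ (N : ℝ) ≤ M + X ∧ Even N ∧ ¬ IsSquare N ∧
      ∀ m p : ℕ, p.Prime → p + m ^ 2 = N → c * FF X < m := by
  obtain ⟨c, hc, X₀, h⟩ := main_of surv_holds (-1) (Or.inr rfl)
  refine ⟨c, hc, X₀, fun X hX M hM => ?_⟩
  obtain ⟨x, h1, h2, h3, h4, h5⟩ := h X hX M hM
  refine ⟨x, h1, h2, (even_iff_two_dvd).mpr h3, ?_, fun m p hp hpm => h5 m p hp ?_⟩
  · rintro ⟨r, hr⟩
    have h6 : (r * r) % 3 = 2 := by rw [← hr]; exact h4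
    have h7 : r % 3 = 0 ∨ r % 3 = 1 ∨ r % 3 = 2 := by omega
    rcases h7 with h | h | h <;> simp [Nat.mul_mod, h] at h6
  · have : (p : ℤ) + (m : ℤ) ^ 2 = x := by exact_mod_cast hpm
    linarith

theorem plus_square :
    ∃ c : ℝ, 0 < c ∧ ∃ X₀ : ℝ, ∀ X : ℝ, X₀ ≤ X → ∀ M : ℝ, X ≤ M →
    ∃ a : ℕ, M < a ∧ (a : ℝ) ≤ M + X ∧ ∀ n : ℕ, (n ^ 2 + a).Prime → c * FF X < n := by
  obtain ⟨c, hc, X₀, h⟩ := main_of surv_holds 1 (Or.inl rfl)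
  refine ⟨c, hc, X₀, fun X hX M hM => ?_⟩
  obtain ⟨x, h1, h2, h3, h4, h5⟩ := h X hX M hM
  refine ⟨x, h1, h2, fun n hn => h5 n _ hn ?_⟩
  push_cast
  ring

end Pool.Agent.H378R2.PS
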