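import Pool.Agent.H378R2.PS.MainG
import Pool.Agent.H378R2.PS.P0
import Pool.Agent.H201R2.PS.P3
import Pool.Agent.H510R2.PS.P6

set_option autoImplicit false

/-! # Theorem B (project PS) -/

namespace Pool.Agent.H378R2.PS

theorem survG_holds : SurvGStmt := fun s hs =>
  survG (sieve_gen 1 (Or.inl rfl)) smooth8 s hs

theorem goldbach_least :
    ∃ c : ℝ, 0 < c ∧ ∃ X₀ : ℝ, ∀ X : ℝ, X₀ ≤ X → ∀ M : ℝ, X ≤ M →
    ∃ N : ℕ, M < N ∧ (N : ℝ) ≤ M + X ∧ Even N ∧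
      ∀ q r : ℕ, q.Prime → r.Prime → (r + q = N ∨ r = N + q) → c * FG X < q :=
  mainG_of survG_holds

end Pool.Agent.H378R2.PS
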