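import Pool.Agent.H256R2.SC.V
import Pool.Agent.H378R2.PS.Ana

set_option autoImplicit false
set_option linter.unusedVariables false

/-! # Integers that are not a small square plus a prime (project PS, helper378) -/

namespace Pool.Agent.H378R2.PS

open Finset Filter
open Pool.Agent.H256R2.SC (covering)
open Pool.Agent.H256R2.SC.LG (exists_crt count_Ioc)

open scoped Classical

/-- the statement of `surv` -/
def SurvStmt : Prop := ∃ C : ℝ, 0 < C ∧ ∃ y₀ : ℝ, ∀ y : ℝ, y₀ ≤ y → ∀ R : ℕ, y ≤ R →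
    (R : ℝ) ≤ y * (Real.log y) ^ 5 → ∀ S : Finset ℕ, (∀ m ∈ S, 3 ≤ m ∧ m ≤ R ∧
      (∀ p : ℕ, p.Prime → 5 ≤ p → Real.log p ≤ V1 y → ¬ (p ∣ (m - 2)) ∧ ¬ (p ∣ (m + 2))) ∧
      (∀ p : ℕ, p.Prime → V1 y < Real.log p → (p : ℝ) ≤ y → ¬ (p ∣ (m - 1)) ∧ ¬ (p ∣ (m + 1)))) →
    (S.card : ℝ) ≤ C * R * (Real.log (Real.log y)) ^ 4 /
        ((Real.log y) ^ 4 * (Real.log (Real.log (Real.log y))) ^ 2)

/-- counting the integers of an interval in a class mod `P` and a class mod `q` -/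
theorem count_two (A B : ℤ) (hAB : A ≤ B) (P q : ℕ) (hP : 0 < P) (hq : 0 < q)
    (hc : Nat.Coprime P q) (b r : ℤ) :
    |((((Ioc A B).filter (fun x => (P : ℤ) ∣ x - b)).filter (fun x => (q : ℤ) ∣ x - r)).card : ℝ) -
      (((B : ℝ) - A) / P) / q| ≤ 1 := by
  have hcop : IsCoprime (P : ℤ) (q : ℤ) := Nat.isCoprime_iff_coprime.mpr hc
  obtain ⟨u, v, huv⟩ := hcop
  set c : ℤ := b + P * u * (r - b) with hcdef
  have h1 : (((Ioc A B).filter (fun x => (P : ℤ) ∣ x - b)).filter (fun x => (q : ℤ) ∣ x - r)) =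
      (Ioc A B).filter (fun x => ((P * q : ℕ) : ℤ) ∣ x - c) := by
    rw [Finset.filter_filter]
    apply Finset.filter_congr
    intro x _
    push_cast
    constructor
    · rintro ⟨h2, h3⟩
      apply IsCoprime.mul_dvd (Nat.isCoprime_iff_coprime.mpr hc)
      · have e : x - c = (x - b) - P * (u * (r - b)) := by rw [hcdef]; ring
        rw [e]
        exact dvd_sub h2 (dvd_mul_right _ _)
      · have e : x - c = (x - r) + q * (v * (r - b)) := by
          rw [hcdef]
          linear_combination (-(r - b)) * huv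
        rw [e]
        exact dvd_add h3 (dvd_mul_right _ _)
    · intro h2
      have hP' : (P : ℤ) ∣ x - c := (dvd_mul_right _ _).trans h2
      have hq' : (q : ℤ) ∣ x - c := (dvd_mul_left _ _).trans h2
      constructor
      · have e : x - b = (x - c) + P * (u * (r - b)) := by rw [hcdef]; ring
        rw [e]
        exact dvd_add hP' (dvd_mul_right _ _)
      · have e : x - r = (x - c) - q * (v * (r - b)) := by
          rw [hcdef]
          linear_combination (r - b) * huv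
        rw [e]
        exact dvd_sub hq' (dvd_mul_right _ _)
  rw [h1]
  have h2 := count_Ioc A B hAB (P * q) (Nat.mul_pos hP hq) c
  have e : (((B : ℝ) - A) / P) / q = ((B : ℝ) - A) / ((P * q : ℕ) : ℝ) := by
    push_cast
    rw [div_div]
  rw [e]
  exact h2

/-- the residue classes -/
noncomputable def cls (s : ℤ) (y : ℝ) (p : ℕ) : ℕ :=
  if p = 2 then 0 else if p = 3 then 2 else
    if Real.log p ≤ V1 y then ((-(4 * s)) % (p : ℤ)).toNat else ((-s) % (p : ℤ)).toNat

theorem toNat_mod (a : ℤ) (p : ℕ) (hp : 0 < p) : (p : ℤ) ∣ (((a % (p : ℤ)).toNat : ℕ) : ℤ) - a := by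
  have h0 : (0 : ℤ) ≤ a % (p : ℤ) := Int.emod_nonneg _ (by exact_mod_cast hp.ne')
  rw [Int.toNat_of_nonneg h0]
  have := Int.emod_add_mul_ediv a (p : ℤ)
  exact ⟨-(a / p), by linarith⟩

theorem dvd_of_cls {s : ℤ} {y : ℝ} {p : ℕ} (hp : p.Prime) (hV : 2 ≤ V1 y) {m : ℕ} (hm : 3 ≤ m)
    (h : ¬ ((p : ℤ) ∣ (cls s y p : ℤ) + s * (m : ℤ) ^ 2)) :
    (5 ≤ p → Real.log p ≤ V1 y → ¬ (p ∣ (m - 2)) ∧ ¬ (p ∣ (m + 2))) ∧
      (V1 y < Real.log p → ¬ (p ∣ (m - 1)) ∧ ¬ (p ∣ (m + 1))) := by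
  have hp0 : 0 < p := hp.pos
  constructor
  · intro h5 hl
    have e1 : cls s y p = ((-(4 * s)) % (p : ℤ)).toNat := by
      unfold cls
      rw [if_neg (by omega), if_neg (by omega), if_pos hl]
    have h1 : (p : ℤ) ∣ (cls s y p : ℤ) - (-(4 * s)) := by
      rw [e1]
      exact toNat_mod _ _ hp0
    have key : ¬ (p : ℤ) ∣ ((m : ℤ) - 2) * ((m : ℤ) + 2) := by
      intro hd
      apply h
      have e : (cls s y p : ℤ) + s * (m : ℤ) ^ 2 =
          ((cls s y p : ℤ) - (-(4 * s))) + (((m : ℤ) - 2) * ((m : ℤ) + 2)) * s := by ring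
      rw [e]
      exact dvd_add h1 (Dvd.dvd.mul_right hd _)
    constructor
    · intro hd
      apply key
      have : (p : ℤ) ∣ (m : ℤ) - 2 := by
        have h2 : ((m - 2 : ℕ) : ℤ) = (m : ℤ) - 2 := by push_cast [Nat.cast_sub (by omega : 2 ≤ m)]; ring
        rw [← h2]
        exact_mod_cast hd
      exact Dvd.dvd.mul_right this _
    · intro hd
      apply key
      have : (p : ℤ) ∣ (m : ℤ) + 2 := by exact_mod_cast hd
      exact Dvd.dvd.mul_left this _
  · intro hl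
    have h3 : 3 < p := by
      by_contra hcon
      have h4 : (p : ℝ) ≤ 3 := by exact_mod_cast (not_lt.mp hcon)
      have h5 : Real.log p ≤ Real.log 3 := Real.log_le_log (by exact_mod_cast hp0) h4
      have h6 : Real.log 3 ≤ 3 - 1 := Real.log_le_sub_one_of_pos (by norm_num)
      linarith
    have e1 : cls s y p = ((-s) % (p : ℤ)).toNat := by
      unfold cls
      rw [if_neg (by omega), if_neg (by omega), if_neg (not_le.mpr hl)]
    have h1 : (p : ℤ) ∣ (cls s y p : ℤ) - (-s) := by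
      rw [e1]
      exact toNat_mod _ _ hp0
    have key : ¬ (p : ℤ) ∣ ((m : ℤ) - 1) * ((m : ℤ) + 1) := by
      intro hd
      apply h
      have e : (cls s y p : ℤ) + s * (m : ℤ) ^ 2 =
          ((cls s y p : ℤ) - (-s)) + (((m : ℤ) - 1) * ((m : ℤ) + 1)) * s := by ring
      rw [e]
      exact dvd_add h1 (Dvd.dvd.mul_right hd _)
    constructor
    · intro hd
      apply key
      have : (p : ℤ) ∣ (m : ℤ) - 1 := by
        have h2 : ((m - 1 : ℕ) : ℤ) = (m : ℤ) - 1 := by push_cast [Nat.cast_sub (by omega : 1 ≤ m)]; ring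
        rw [← h2]
        exact_mod_cast hd
      exact Dvd.dvd.mul_right this _
    · intro hd
      apply key
      have : (p : ℤ) ∣ (m : ℤ) + 1 := by exact_mod_cast hd
      exact Dvd.dvd.mul_left this _

/-- distinct colours -/
theorem distinct {s : ℤ} (hs : s = 1 ∨ s = -1) {p L : ℕ} (hp : p.Prime) (hpL : 2 * L < p)
    {k l : ℕ} (hk : k ≤ L) (hl : l ≤ L) (hkl : k ≠ l) :
    ¬ ((p : ℤ) ∣ (-(s * (k : ℤ) ^ 2)) - (-(s * (l : ℤ) ^ 2))) := by
  intro hd
  have h1 : (p : ℤ) ∣ ((l : ℤ) - k) * ((l : ℤ) + k) := by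
    rcases hs with rfl | rfl
    · have e : ((l : ℤ) - k) * ((l : ℤ) + k) = (-(1 * (k : ℤ) ^ 2)) - (-(1 * (l : ℤ) ^ 2)) := by ring
      rw [e]; exact hd
    · have e : ((l : ℤ) - k) * ((l : ℤ) + k) =
          -((-(-1 * (k : ℤ) ^ 2)) - (-(-1 * (l : ℤ) ^ 2))) := by ring
      rw [e]; exact (dvd_neg.mpr hd)
  have hp' : Prime (p : ℤ) := Nat.prime_iff_prime_int.mp hp
  rcases hp'.dvd_or_dvd h1 with h2 | h2
  · have h3 : (l : ℤ) - k ≠ 0 := by
      intro h0
      apply hkl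
      have : (l : ℤ) = k := by linarith
      exact_mod_cast this.symm
    have h4 := Int.le_of_dvd (abs_pos.mpr h3) ((dvd_abs _ _).mpr h2)
    have h5 : |(l : ℤ) - k| ≤ L := by
      rw [abs_le]
      constructor <;> omega
    omega
  · have h3 : 0 < (l : ℤ) + k := by
      rcases Nat.eq_zero_or_pos k with h0 | h0
      · have : 0 < l := by omega
        omega
      · omega
    have h4 := Int.le_of_dvd h3 h2
    omega

theorem main_of (hsurv : SurvStmt) (s : ℤ) (hs : s = 1 ∨ s = -1) :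
    ∃ c : ℝ, 0 < c ∧ ∃ X₀ : ℝ, ∀ X : ℝ, X₀ ≤ X → ∀ M : ℝ, X ≤ M →
    ∃ x : ℕ, M < x ∧ (x : ℝ) ≤ M + X ∧ 2 ∣ x ∧ x % 3 = 2 ∧
      ∀ m q : ℕ, q.Prime → (q : ℤ) = x + s * (m : ℤ) ^ 2 → c * FF X < m := by
  obtain ⟨c₁, hc₁, X₁, hcov⟩ := covering
  obtain ⟨C, hC, y₀, hsur⟩ := hsurv
  obtain ⟨c, hc, X₂, hana⟩ := ana2 (y₀ := y₀) hc₁ hC
  refine ⟨c, hc, max X₁ X₂, fun X hX M hM => ?_⟩
  obtain ⟨y, hy⟩ : ∃ y : ℝ, y = Real.log X / 10 := ⟨_, rfl⟩
  obtain ⟨L, hL⟩ : ∃ L : ℕ, L = ⌊c * FF X⌋₊ := ⟨_, rfl⟩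
  obtain ⟨a1, a2, a3, a4, a5, a6, a7, a8, a9, a10, a11, a12, a13, a14, a15⟩ :=
    hana X ((le_max_right _ _).trans hX) y _ hy rfl L hL
  have hX0 : 0 < X := by linarith
  -- the small primes
  obtain ⟨P, hP⟩ : ∃ P : ℕ, P = primorial ⌊y⌋₊ := ⟨_, rfl⟩
  have hP0 : 0 < P := by rw [hP]; exact primorial_pos _
  obtain ⟨b0, hb0, hb0'⟩ := exists_crt ⌊y⌋₊ (cls s y)
  have hy0 : 0 ≤ y := by linarith
  -- the survivors
  obtain ⟨S, hS⟩ : ∃ S : Finset ℕ, S = (Finset.range (L + 1)).filter (fun m : ℕ =>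
      ∀ p : ℕ, p.Prime → (p : ℝ) ≤ y → ¬ ((p : ℤ) ∣ (cls s y p : ℤ) + s * (m : ℤ) ^ 2)) :=
    ⟨_, rfl⟩
  have hSL : ∀ m ∈ S, m ≤ L := by
    intro m hm
    rw [hS, Finset.mem_filter, Finset.mem_range] at hm
    omega
  have hScard : (S.card : ℝ) ≤ c₁ * Real.log X := by
    have h1 : S ⊆ Finset.range 3 ∪ S.filter (fun m => 3 ≤ m) := by
      intro m hm
      rw [Finset.mem_union, Finset.mem_range, Finset.mem_filter]
      rcases Nat.lt_or_ge m 3 with h2 | h2
      · left; exact h2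
      · right; exact ⟨hm, h2⟩
    have h2 := (Finset.card_le_card h1).trans (Finset.card_union_le _ _)
    rw [Finset.card_range] at h2
    have h3 := hsur y a2 L a4 a5 (S.filter (fun m => 3 ≤ m)) (by
      intro m hm
      rw [Finset.mem_filter, hS, Finset.mem_filter, Finset.mem_range] at hm
      obtain ⟨⟨hm1, hm2⟩, hm3⟩ := hm
      refine ⟨hm3, by omega, fun p hp h5 hl => ?_, fun p hp hl hpy => ?_⟩
      · have hpy : (p : ℝ) ≤ y := by
          by_contra hcon
          push Not at hcon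
          -- `log p > log y ≥ V1 y`
          have h6 : Real.log y < Real.log p := Real.log_lt_log (by linarith) hcon
          have h7 : V1 y ≤ Real.log y := by
            unfold V1 at a15 ⊢
            have hly : 0 < Real.log y := Real.log_pos (by linarith)
            rcases le_or_gt (20 * Real.log (Real.log y)) 0 with h8 | h8
            · exfalso
              have h9 : Real.log (Real.log y) ≤ 0 := by linarith
              have h10 : Real.log (Real.log (Real.log y)) ≤ 0 ∨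
                  0 < Real.log (Real.log (Real.log y)) := le_or_gt _ _
              have hly1 : 1 < Real.log y := by
                have := Real.add_one_le_exp (1 : ℝ)
                have h12 : Real.exp 1 < 3 := Real.exp_one_lt_d9.trans (by norm_num)
                have h11 : Real.log (Real.exp 1) < Real.log y :=
                  Real.log_lt_log (Real.exp_pos _) (by linarith)
                rwa [Real.log_exp] at h11
              have := Real.log_pos hly1
              linarith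
            · rw [div_le_iff₀ h8]
              apply mul_le_mul_of_nonneg_left _ hly.le
              have h9 : 0 < Real.log (Real.log y) := by linarith
              have := Real.log_le_sub_one_of_pos h9
              linarith
          linarith
        exact (dvd_of_cls hp a15 hm3 (hm2 p hp hpy)).1 h5 hl
      · exact (dvd_of_cls hp a15 hm3 (hm2 p hp hpy)).2 hl)
    have h4 : (S.card : ℝ) ≤ 3 + ((S.filter (fun m => 3 ≤ m)).card : ℝ) := by exact_mod_cast h2
    linarith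
  -- the set of the `x`
  obtain ⟨A, hA⟩ : ∃ A : ℤ, A = ⌊M⌋ := ⟨_, rfl⟩
  obtain ⟨B, hB⟩ : ∃ B : ℤ, B = ⌊M + X⌋ := ⟨_, rfl⟩
  have hAB : A ≤ B := by rw [hA, hB]; exact Int.floor_mono (by linarith)
  have hA1 : (A : ℝ) ≤ M := by rw [hA]; exact Int.floor_le _
  have hA2 : M < (A : ℝ) + 1 := by rw [hA]; exact Int.lt_floor_add_one _
  have hB1 : (B : ℝ) ≤ M + X := by rw [hB]; exact Int.floor_le _
  have hB2 : M + X < (B : ℝ) + 1 := by rw [hB]; exact Int.lt_floor_add_one _
  have hPR : (0 : ℝ) < P := by exact_mod_cast hP0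
  have hP1 : (1 : ℝ) ≤ P := by exact_mod_cast hP0
  rw [← hP] at a9
  have hX2 : 0 < X ^ (1 / 2 : ℝ) := Real.rpow_pos_of_pos hX0 _
  have hXX : X ^ (1 / 2 : ℝ) * X ^ (1 / 2 : ℝ) = X := by
    rw [← Real.rpow_add hX0]; norm_num
  have hX4 : 4 ≤ X ^ (1 / 2 : ℝ) := by linarith
  have hN : X ^ (1 / 2 : ℝ) ≤ ((B : ℝ) - A) / P := by
    rw [le_div_iff₀ hPR]
    have h3 : X ^ (1 / 2 : ℝ) * (4 * (P : ℝ)) ≤ X := by
      calc X ^ (1 / 2 : ℝ) * (4 * (P : ℝ)) ≤ X ^ (1 / 2 : ℝ) * X ^ (1 / 2 : ℝ) :=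
            mul_le_mul_of_nonneg_left a9 hX2.le
        _ = X := hXX
    have h4 : 16 ≤ X := by nlinarith
    nlinarith
  obtain ⟨x, hx, hxS⟩ := hcov X ((le_max_left _ _).trans hX) ∅ (by
      rw [Finset.card_empty, Nat.cast_zero]
      have : 0 ≤ Real.log X := Real.log_nonneg a1
      linarith) {m // m ∈ S} (by rw [Fintype.card_coe]; exact hScard)
    (fun _ k => -(s * ((k : ℕ) : ℤ) ^ 2))
    (by
      intro p hp hp1 _ _ k l hkl
      refine distinct hs hp ?_ (hSL _ k.2) (hSL _ l.2) (fun h => hkl (Subtype.ext h))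
      have : (2 * L : ℝ) < p := by linarith
      exact_mod_cast this)
    ((Ioc A B).filter (fun x => (P : ℤ) ∣ x - b0)) (((B : ℝ) - A) / P) 1 hN zero_le_one
    (by linarith) (by
      intro q hq1 hq2 hq3 r
      have hq0 : 0 < q := Nat.pos_of_ne_zero hq1.ne_zero
      have hcop : Nat.Coprime P q := by
        rw [Nat.coprime_iff_gcd_eq_one]
        by_contra hne
        obtain ⟨p, hp, hpd⟩ := Nat.exists_prime_and_dvd hne
        have h1 : p ∣ P := hpd.trans (Nat.gcd_dvd_left _ _)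
        have h2 : p ∣ q := hpd.trans (Nat.gcd_dvd_right _ _)
        have h3 := (hq3 p (Nat.mem_primeFactors.mpr ⟨hp, h2, hq0.ne'⟩)).1
        rw [hP, primorial] at h1
        rw [Prime.dvd_finsetProd_iff hp.prime] at h1
        obtain ⟨p', hp', hpp'⟩ := h1
        rw [Finset.mem_filter, Finset.mem_range] at hp'
        have h4 : p = p' := (Nat.prime_dvd_prime_iff_eq hp hp'.2).1 hpp'
        have h5 : (p : ℝ) ≤ y := by
          have : p ≤ ⌊y⌋₊ := by omega
          calc (p : ℝ) ≤ (⌊y⌋₊ : ℝ) := by exact_mod_cast this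
            _ ≤ y := Nat.floor_le hy0
        linarith
      exact count_two A B hAB P q hP0 hq0 hcop b0 r)
  rw [Finset.mem_filter, Finset.mem_Ioc] at hx
  obtain ⟨⟨hx1, hx2⟩, hx3⟩ := hx
  have hxM : M < (x : ℝ) := by
    have : (A : ℝ) + 1 ≤ x := by exact_mod_cast hx1
    linarith
  have hxX : (x : ℝ) ≤ M + X := by
    have : (x : ℝ) ≤ B := by exact_mod_cast hx2
    linarith
  have hx0 : 0 ≤ x := by
    have : (0 : ℝ) < x := by linarith
    exact_mod_cast this.le
  obtain ⟨n, rfl⟩ := Int.eq_ofNat_of_zero_le hx0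
  have hxM' : M < (n : ℝ) := by exact_mod_cast hxM
  have hxX' : (n : ℝ) ≤ M + X := by exact_mod_cast hxX
  -- small primes
  have hsmall : ∀ p : ℕ, p.Prime → (p : ℝ) ≤ y → (p : ℤ) ∣ (n : ℤ) - (cls s y p : ℤ) := by
    intro p hp1 hp2
    have hpy : p ≤ ⌊y⌋₊ := Nat.le_floor hp2
    have hpP : (p : ℤ) ∣ (P : ℤ) := by
      rw [hP, primorial]
      have : p ∈ (Finset.range (⌊y⌋₊ + 1)).filter Nat.Prime := by
        rw [Finset.mem_filter, Finset.mem_range]
        exact ⟨by omega, hp1⟩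
      exact_mod_cast Finset.dvd_prod_of_mem _ this
    have h1 : (p : ℤ) ∣ (n : ℤ) - b0 := hpP.trans (by simpa using hx3)
    have h2 : (p : ℤ) ∣ (b0 : ℤ) - (cls s y p : ℤ) := by
      have := hb0' p hp1 hpy
      exact (Nat.modEq_iff_dvd.mp this.symm)
    have := dvd_add h1 h2
    have e : (n : ℤ) - b0 + ((b0 : ℤ) - (cls s y p : ℤ)) = (n : ℤ) - (cls s y p : ℤ) := by ring
    rwa [e] at this
  refine ⟨n, hxM', hxX', ?_, ?_, fun m q hq hqe => ?_⟩
  · have h1 := hsmall 2 Nat.prime_two (by push_cast; linarith)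
    have h2 : cls s y 2 = 0 := by unfold cls; rw [if_pos rfl]
    rw [h2] at h1
    have h3 : ((2 : ℕ) : ℤ) ∣ ((n : ℕ) : ℤ) := by simpa using h1
    exact_mod_cast h3
  · have h1 := hsmall 3 Nat.prime_three (by push_cast; linarith)
    have h2 : cls s y 3 = 2 := by unfold cls; rw [if_neg (by norm_num), if_pos rfl]
    rw [h2] at h1
    push_cast at h1
    omega
  · by_contra hcon
    push Not at hcon
    have hmL : m ≤ L := by rw [hL]; exact Nat.le_floor hcon
    have hmL2 : (m : ℝ) ^ 2 ≤ X / 4 := by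
      have h1 : (m : ℝ) ≤ L := by exact_mod_cast hmL
      calc (m : ℝ) ^ 2 ≤ (L : ℝ) ^ 2 := by gcongr
        _ ≤ X / 4 := a13
    have hqbig : X / 4 < (q : ℝ) := by
      have h1 : (q : ℝ) = (n : ℝ) + s * (m : ℝ) ^ 2 := by exact_mod_cast hqe
      have h2 : -((m : ℝ) ^ 2) ≤ (s : ℝ) * (m : ℝ) ^ 2 := by
        have h3 : 0 ≤ (m : ℝ) ^ 2 := by positivity
        rcases hs with rfl | rfl
        · push_cast; linarith
        · push_cast; linarith
      rw [h1]
      linarith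
    have hprime : ∀ p : ℕ, p.Prime → (p : ℝ) ≤ X / 4 → ¬ (p : ℤ) ∣ (n : ℤ) + s * (m : ℤ) ^ 2 := by
      intro p hp hpZ hd
      rw [← hqe] at hd
      have h1 : p ∣ q := by exact_mod_cast hd
      have h2 : p = q := (Nat.prime_dvd_prime_iff_eq hp hq).1 h1
      rw [h2] at hpZ
      linarith
    by_cases hsm : ∀ p : ℕ, p.Prime → (p : ℝ) ≤ y → ¬ ((p : ℤ) ∣ (cls s y p : ℤ) + s * (m : ℤ) ^ 2)
    · have hmem : m ∈ S := by
        rw [hS, Finset.mem_filter, Finset.mem_range]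
        exact ⟨by omega, hsm⟩
      obtain ⟨p, hp1, hp2, hp3, -, hp4⟩ := hxS ⟨m, hmem⟩
      refine hprime p hp1 (by linarith) ?_
      have e : (n : ℤ) + s * (m : ℤ) ^ 2 = (n : ℤ) - -(s * (m : ℤ) ^ 2) := by ring
      rw [e]
      simpa using hp4
    · push Not at hsm
      obtain ⟨p, hp1, hp2, hp3⟩ := hsm
      refine hprime p hp1 (by linarith) ?_
      have h4 := dvd_add (hsmall p hp1 hp2) hp3
      have e : (n : ℤ) - (cls s y p : ℤ) + ((cls s y p : ℤ) + s * (m : ℤ) ^ 2) =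
          (n : ℤ) + s * (m : ℤ) ^ 2 := by ring
      rwa [e] at h4

end Pool.Agent.H378R2.PS
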