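import Pool.Agent.H378R2.PS.Main
import Pool.Agent.H378R2.PS.AnaG

set_option autoImplicit false
set_option linter.unusedVariables false

/-! # Even integers without Goldbach representations with a small prime (project PS, helper378) -/

namespace Pool.Agent.H378R2.PS

open Finset Filter
open Pool.Agent.H256R2.SC (covering)
open Pool.Agent.H256R2.SC.LG (exists_crt count_Ioc)

open scoped Classical

/-- the statement of `survG` -/
def SurvGStmt : Prop := ∀ s : ℤ, (s = 1 ∨ s = -1) → ∃ C : ℝ, 0 < C ∧ ∃ y₀ : ℝ, ∀ y : ℝ, y₀ ≤ y →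
    ∀ R : ℕ, y ≤ R → (R : ℝ) ≤ y * (Real.log y) ^ 4 → ∀ S : Finset ℕ,
    (∀ q ∈ S, q.Prime ∧ 5 ≤ q ∧ q ≤ R ∧
      (∀ p : ℕ, p.Prime → 5 ≤ p → Real.log p ≤ V1 y → ¬ ((p : ℤ) ∣ (q : ℤ) - 2 * s)) ∧
      (∀ p : ℕ, p.Prime → V1 y < Real.log p → (p : ℝ) ≤ y → ¬ ((p : ℤ) ∣ (q : ℤ) - s))) →
    (S.card : ℝ) ≤ C * R * (Real.log (Real.log y)) ^ 2 /
        ((Real.log y) ^ 3 * Real.log (Real.log (Real.log y)))

/-- the residue classes -/
noncomputable def clG (y : ℝ) (p : ℕ) : ℕ :=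
  if p = 2 then 0 else if Real.log p ≤ V1 y then 2 else 1

theorem V1_le {y : ℝ} (hy : 5 ≤ y) (hV : 2 ≤ V1 y) : V1 y ≤ Real.log y := by
  unfold V1 at hV ⊢
  have hly : 0 < Real.log y := Real.log_pos (by linarith)
  rcases le_or_gt (20 * Real.log (Real.log y)) 0 with h8 | h8
  · exfalso
    have h9 : Real.log (Real.log y) ≤ 0 := by linarith
    have hly1 : 1 < Real.log y := by
      have h12 : Real.exp 1 < 3 := Real.exp_one_lt_d9.trans (by norm_num)
      have h11 : Real.log (Real.exp 1) < Real.log y :=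
        Real.log_lt_log (Real.exp_pos _) (by linarith)
      rwa [Real.log_exp] at h11
    have := Real.log_pos hly1
    linarith
  · rw [div_le_iff₀ h8]
    apply mul_le_mul_of_nonneg_left _ hly.le
    have h9 : 0 < Real.log (Real.log y) := by linarith
    have := Real.log_le_sub_one_of_pos h9
    linarith

/-- the count for one sign -/
theorem card_sign {C y : ℝ} {s : ℤ} (hs : s = 1 ∨ s = -1) (hy : 5 ≤ y) (hV : 2 ≤ V1 y) {L : ℕ}
    {B : ℝ} (h : ∀ S : Finset ℕ,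
    (∀ q ∈ S, q.Prime ∧ 5 ≤ q ∧ q ≤ L ∧
      (∀ p : ℕ, p.Prime → 5 ≤ p → Real.log p ≤ V1 y → ¬ ((p : ℤ) ∣ (q : ℤ) - 2 * s)) ∧
      (∀ p : ℕ, p.Prime → V1 y < Real.log p → (p : ℝ) ≤ y → ¬ ((p : ℤ) ∣ (q : ℤ) - s))) →
      (S.card : ℝ) ≤ B) :
    (((Finset.range (L + 1)).filter (fun q : ℕ => q.Prime ∧ ∀ p : ℕ, p.Prime → (p : ℝ) ≤ y →
      ¬ ((p : ℤ) ∣ (clG y p : ℤ) - s * (q : ℤ)))).card : ℝ) ≤ 2 + B := by
  obtain ⟨S, hS⟩ : ∃ S : Finset ℕ, S = (Finset.range (L + 1)).filter (fun q : ℕ => q.Prime ∧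
      ∀ p : ℕ, p.Prime → (p : ℝ) ≤ y → ¬ ((p : ℤ) ∣ (clG y p : ℤ) - s * (q : ℤ))) := ⟨_, rfl⟩
  rw [← hS]
  have hss : s * s = 1 := by rcases hs with rfl | rfl <;> norm_num
  have h1 : S ⊆ {2, 3} ∪ S.filter (fun q => 5 ≤ q) := by
    intro q hq
    rw [Finset.mem_union, Finset.mem_filter]
    rcases Nat.lt_or_ge q 5 with h2 | h2
    · left
      have hqp : q.Prime := by
        rw [hS, Finset.mem_filter] at hq
        exact hq.2.1
      have := hqp.two_le
      rw [Finset.mem_insert, Finset.mem_singleton]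
      interval_cases q
      · left; rfl
      · right; rfl
      · exact absurd hqp (by norm_num)
    · right; exact ⟨hq, h2⟩
  have h2 := (Finset.card_le_card h1).trans (Finset.card_union_le _ _)
  have h23 : ({2, 3} : Finset ℕ).card = 2 := by decide
  rw [h23] at h2
  have h3 := h (S.filter (fun q => 5 ≤ q)) (by
    intro q hq
    rw [Finset.mem_filter, hS, Finset.mem_filter, Finset.mem_range] at hq
    obtain ⟨⟨hq1, hq2, hq3⟩, hq5⟩ := hq
    refine ⟨hq2, hq5, by omega, fun p hp h5 hl hd => ?_, fun p hp hl hpy hd => ?_⟩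
    · have hpy : (p : ℝ) ≤ y := by
        by_contra hcon
        push Not at hcon
        have h6 : Real.log y < Real.log p := Real.log_lt_log (by linarith) hcon
        have h7 := V1_le hy hV
        linarith
      apply hq3 p hp hpy
      have e1 : clG y p = 2 := by
        unfold clG
        rw [if_neg (by omega), if_pos hl]
      rw [e1]
      have e2 : ((2 : ℕ) : ℤ) - s * (q : ℤ) = -s * ((q : ℤ) - 2 * s) := by
        push_cast
        linear_combination (-2) * hss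
      rw [e2]
      exact Dvd.dvd.mul_left hd _
    · have hp3 : 3 ≤ p := by
        by_contra hcon
        have hp0 : 0 < p := hp.pos
        have h4 : (p : ℝ) ≤ 2 := by exact_mod_cast (by omega : p ≤ 2)
        have h5 : Real.log p ≤ Real.log 2 := Real.log_le_log (by exact_mod_cast hp0) h4
        have h6 : Real.log 2 ≤ 2 - 1 := Real.log_le_sub_one_of_pos (by norm_num)
        linarith
      apply hq3 p hp hpy
      have e1 : clG y p = 1 := by
        unfold clG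
        rw [if_neg (by omega), if_neg (not_le.mpr hl)]
      rw [e1]
      have e2 : ((1 : ℕ) : ℤ) - s * (q : ℤ) = -s * ((q : ℤ) - s) := by
        push_cast
        linear_combination (-1) * hss
      rw [e2]
      exact Dvd.dvd.mul_left hd _)
  have h4 : (S.card : ℝ) ≤ 2 + ((S.filter (fun q => 5 ≤ q)).card : ℝ) := by exact_mod_cast h2
  linarith

theorem mainG_of (hsurv : SurvGStmt) :
    ∃ c : ℝ, 0 < c ∧ ∃ X₀ : ℝ, ∀ X : ℝ, X₀ ≤ X → ∀ M : ℝ, X ≤ M →
    ∃ N : ℕ, M < N ∧ (N : ℝ) ≤ M + X ∧ Even N ∧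
      ∀ q r : ℕ, q.Prime → r.Prime → (r + q = N ∨ r = N + q) → c * FG X < q := by
  obtain ⟨c₁, hc₁, X₁, hcov⟩ := covering
  obtain ⟨C₁, hC₁, y₁, hsur₁⟩ := hsurv 1 (Or.inl rfl)
  obtain ⟨C₂, hC₂, y₂, hsur₂⟩ := hsurv (-1) (Or.inr rfl)
  obtain ⟨C, hCdef⟩ : ∃ C : ℝ, C = C₁ + C₂ := ⟨_, rfl⟩
  have hC : 0 < C := by rw [hCdef]; linarith
  obtain ⟨c, hc, X₂, hana⟩ := ana3 (y₀ := max y₁ y₂) hc₁ hC
  refine ⟨c, hc, max X₁ X₂, fun X hX M hM => ?_⟩
  obtain ⟨y, hy⟩ : ∃ y : ℝ, y = Real.log X / 10 := ⟨_, rfl⟩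
  obtain ⟨L, hL⟩ : ∃ L : ℕ, L = ⌊c * FG X⌋₊ := ⟨_, rfl⟩
  obtain ⟨a1, a2, a3, a4, a5, a6, a7, a8, a9, a10, a11, a12, a13, a14, a15⟩ :=
    hana X ((le_max_right _ _).trans hX) y _ hy rfl L hL
  have hX0 : 0 < X := by linarith
  -- the small primes
  obtain ⟨P, hP⟩ : ∃ P : ℕ, P = primorial ⌊y⌋₊ := ⟨_, rfl⟩
  have hP0 : 0 < P := by rw [hP]; exact primorial_pos _
  obtain ⟨b0, hb0, hb0'⟩ := exists_crt ⌊y⌋₊ (clG y)
  have hy0 : 0 ≤ y := by linarith
  have hlogy : 0 < Real.log y := Real.log_pos (by linarith)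
  -- the bound for one sign
  obtain ⟨W, hW⟩ : ∃ W : ℝ, W = (Real.log (Real.log y)) ^ 2 /
        ((Real.log y) ^ 3 * Real.log (Real.log (Real.log y))) := ⟨_, rfl⟩
  have hVl := V1_le a3 a15
  have hlll : 0 < Real.log (Real.log (Real.log y)) := by
    by_contra hcon
    push Not at hcon
    have h1 : V1 y ≤ 0 ∨ Real.log (Real.log y) < 0 := by
      rcases lt_or_ge (Real.log (Real.log y)) 0 with h2 | h2
      · right; exact h2
      · left
        unfold V1
        apply div_nonpos_of_nonpos_of_nonneg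
        · exact mul_nonpos_of_nonneg_of_nonpos hlogy.le hcon
        · linarith
    rcases h1 with h2 | h2
    · linarith
    · have h3 : 1 ≤ Real.log y := by linarith
      have := Real.log_nonneg h3
      linarith
  have hW0 : 0 ≤ W := by rw [hW]; positivity
  have hB₁ : ∀ S : Finset ℕ, (∀ q ∈ S, q.Prime ∧ 5 ≤ q ∧ q ≤ L ∧
      (∀ p : ℕ, p.Prime → 5 ≤ p → Real.log p ≤ V1 y → ¬ ((p : ℤ) ∣ (q : ℤ) - 2 * 1)) ∧
      (∀ p : ℕ, p.Prime → V1 y < Real.log p → (p : ℝ) ≤ y → ¬ ((p : ℤ) ∣ (q : ℤ) - 1))) →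
      (S.card : ℝ) ≤ C₁ * (L * W) := by
    intro S hS
    refine (hsur₁ y ((le_max_left _ _).trans a2) L a4 a5 S hS).trans (le_of_eq ?_)
    rw [hW]; ring
  have hB₂ : ∀ S : Finset ℕ, (∀ q ∈ S, q.Prime ∧ 5 ≤ q ∧ q ≤ L ∧
      (∀ p : ℕ, p.Prime → 5 ≤ p → Real.log p ≤ V1 y → ¬ ((p : ℤ) ∣ (q : ℤ) - 2 * (-1))) ∧
      (∀ p : ℕ, p.Prime → V1 y < Real.log p → (p : ℝ) ≤ y → ¬ ((p : ℤ) ∣ (q : ℤ) - (-1)))) →
      (S.card : ℝ) ≤ C₂ * (L * W) := by
    intro S hS
    refine (hsur₂ y ((le_max_right _ _).trans a2) L a4 a5 S hS).trans (le_of_eq ?_)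
    rw [hW]; ring
  have k₁ := card_sign (C := C) (Or.inl rfl) a3 a15 hB₁
  have k₂ := card_sign (C := C) (Or.inr rfl) a3 a15 hB₂
  obtain ⟨T₁, hT₁⟩ : ∃ T : Finset ℕ, T = (Finset.range (L + 1)).filter (fun q : ℕ => q.Prime ∧
      ∀ p : ℕ, p.Prime → (p : ℝ) ≤ y → ¬ ((p : ℤ) ∣ (clG y p : ℤ) - 1 * (q : ℤ))) := ⟨_, rfl⟩
  obtain ⟨T₂, hT₂⟩ : ∃ T : Finset ℕ, T = (Finset.range (L + 1)).filter (fun q : ℕ => q.Prime ∧
      ∀ p : ℕ, p.Prime → (p : ℝ) ≤ y → ¬ ((p : ℤ) ∣ (clG y p : ℤ) - (-1) * (q : ℤ))) := ⟨_, rfl⟩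
  rw [← hT₁] at k₁
  rw [← hT₂] at k₂
  obtain ⟨S, hS⟩ : ∃ S : Finset ℤ, S = T₁.image (fun q : ℕ => (q : ℤ)) ∪
      T₂.image (fun q : ℕ => -(q : ℤ)) := ⟨_, rfl⟩
  have hSL : ∀ h ∈ S, |h| ≤ (L : ℤ) := by
    intro h hh
    rw [hS, Finset.mem_union, Finset.mem_image, Finset.mem_image] at hh
    rcases hh with ⟨q, hq, rfl⟩ | ⟨q, hq, rfl⟩
    · rw [hT₁, Finset.mem_filter, Finset.mem_range] at hq
      rw [abs_of_nonneg (by positivity)]
      exact_mod_cast (by omega : q ≤ L)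
    · rw [hT₂, Finset.mem_filter, Finset.mem_range] at hq
      rw [abs_neg, abs_of_nonneg (by positivity)]
      exact_mod_cast (by omega : q ≤ L)
  have hScard : (S.card : ℝ) ≤ c₁ * Real.log X := by
    have h1 : S.card ≤ T₁.card + T₂.card := by
      rw [hS]
      exact (Finset.card_union_le _ _).trans
        (Nat.add_le_add Finset.card_image_le Finset.card_image_le)
    have h2 : (S.card : ℝ) ≤ (T₁.card : ℝ) + T₂.card := by exact_mod_cast h1
    have h3 : C * L * (Real.log (Real.log y)) ^ 2 /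
        ((Real.log y) ^ 3 * Real.log (Real.log (Real.log y))) = C₁ * (L * W) + C₂ * (L * W) := by
      rw [hW, hCdef]; ring
    rw [h3] at a6
    have h4 : 0 ≤ C₁ * (L * W) := by positivity
    have h5 : 0 ≤ C₂ * (L * W) := by positivity
    linarith
  -- the set of the `x`
  obtain ⟨A, hA⟩ : ∃ A : ℤ, A = ⌊M⌋ := ⟨_, rfl⟩
  obtain ⟨B, hB⟩ : ∃ B : ℤ, B = ⌊M + X⌋ := ⟨_, rfl⟩
  have hAB : A ≤ B := by rw [hA, hB]; exact Int.floor_mono (by linarith)
  have hA1 : (A : ℝ) ≤ M := by rw [hA]; exact Int.floor_le _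
  have hA2 : M < (A : ℝ) + 1 := by rw [hA]; exact Int.lt_floor_add_one _
  have hB1 : (B : ℝ) ≤ M + X := by rw [hB]; exact Int.floor_le _
  have hB2 : M + X < (B : ℝ) + 1 := by rw [hB]; exact Int.lt_floor_add_one _
  have hPR : (0 : ℝ) < P := by exact_mod_cast hP0
  have hP1 : (1 : ℝ) ≤ P := by exact_mod_cast hP0
  rw [← hP] at a9
  have hX2 : 0 < X ^ (1 / 2 : ℝ) := Real.rpow_pos_of_pos hX0 _
  have hXX : X ^ (1 / 2 : ℝ) * X ^ (1 / 2 : ℝ) = X := by
    rw [← Real.rpow_add hX0]; norm_num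
  have hX4 : 4 ≤ X ^ (1 / 2 : ℝ) := by linarith
  have hN : X ^ (1 / 2 : ℝ) ≤ ((B : ℝ) - A) / P := by
    rw [le_div_iff₀ hPR]
    have h3 : X ^ (1 / 2 : ℝ) * (4 * (P : ℝ)) ≤ X := by
      calc X ^ (1 / 2 : ℝ) * (4 * (P : ℝ)) ≤ X ^ (1 / 2 : ℝ) * X ^ (1 / 2 : ℝ) :=
            mul_le_mul_of_nonneg_left a9 hX2.le
        _ = X := hXX
    have h4 : 16 ≤ X := by nlinarith
    nlinarith
  obtain ⟨x, hx, hxS⟩ := hcov X ((le_max_left _ _).trans hX) ∅ (by
      rw [Finset.card_empty, Nat.cast_zero]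
      have : 0 ≤ Real.log X := Real.log_nonneg a1
      linarith) {h // h ∈ S} (by rw [Fintype.card_coe]; exact hScard)
    (fun _ k => (k : ℤ))
    (by
      intro p hp hp1 _ _ k l hkl hd
      have hk := abs_le.mp (hSL _ k.2)
      have hl := abs_le.mp (hSL _ l.2)
      have h1 : (2 * L : ℝ) < p := by linarith
      have h2 : 2 * L < p := by exact_mod_cast h1
      have h3 : (k : ℤ) - l ≠ 0 := fun h0 => hkl (Subtype.ext (by linarith))
      have h4 := Int.le_of_dvd (abs_pos.mpr h3) ((dvd_abs _ _).mpr hd)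
      have h5 : |(k : ℤ) - l| ≤ 2 * (L : ℤ) := by
        rw [abs_le]
        constructor <;> linarith [hk.1, hk.2, hl.1, hl.2]
      omega)
    ((Ioc A B).filter (fun x => (P : ℤ) ∣ x - b0)) (((B : ℝ) - A) / P) 1 hN zero_le_one
    (by linarith) (by
      intro q hq1 hq2 hq3 r
      have hq0 : 0 < q := Nat.pos_of_ne_zero hq1.ne_zero
      have hcop : Nat.Coprime P q := by
        rw [Nat.coprime_iff_gcd_eq_one]
        by_contra hne
        obtain ⟨p, hp, hpd⟩ := Nat.exists_prime_and_dvd hne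
        have h1 : p ∣ P := hpd.trans (Nat.gcd_dvd_left _ _)
        have h2 : p ∣ q := hpd.trans (Nat.gcd_dvd_right _ _)
        have h3 := (hq3 p (Nat.mem_primeFactors.mpr ⟨hp, h2, hq0.ne'⟩)).1
        rw [hP, primorial] at h1
        rw [Prime.dvd_finsetProd_iff hp.prime] at h1
        obtain ⟨p', hp', hpp'⟩ := h1
        rw [Finset.mem_filter, Finset.mem_range] at hp'
        have h4 : p = p' := (Nat.prime_dvd_prime_iff_eq hp hp'.2).1 hpp'
        have h5 : (p : ℝ) ≤ y := by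
          have : p ≤ ⌊y⌋₊ := by omega
          calc (p : ℝ) ≤ (⌊y⌋₊ : ℝ) := by exact_mod_cast this
            _ ≤ y := Nat.floor_le hy0
        linarith
      exact count_two A B hAB P q hP0 hq0 hcop b0 r)
  rw [Finset.mem_filter, Finset.mem_Ioc] at hx
  obtain ⟨⟨hx1, hx2⟩, hx3⟩ := hx
  have hxM : M < (x : ℝ) := by
    have : (A : ℝ) + 1 ≤ x := by exact_mod_cast hx1
    linarith
  have hxX : (x : ℝ) ≤ M + X := by
    have : (x : ℝ) ≤ B := by exact_mod_cast hx2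
    linarith
  have hx0 : 0 ≤ x := by
    have : (0 : ℝ) < x := by linarith
    exact_mod_cast this.le
  obtain ⟨n, rfl⟩ := Int.eq_ofNat_of_zero_le hx0
  have hxM' : M < (n : ℝ) := by exact_mod_cast hxM
  have hxX' : (n : ℝ) ≤ M + X := by exact_mod_cast hxX
  -- small primes
  have hsmall : ∀ p : ℕ, p.Prime → (p : ℝ) ≤ y → (p : ℤ) ∣ (n : ℤ) - (clG y p : ℤ) := by
    intro p hp1 hp2
    have hpy : p ≤ ⌊y⌋₊ := Nat.le_floor hp2
    have hpP : (p : ℤ) ∣ (P : ℤ) := by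
      rw [hP, primorial]
      have : p ∈ (Finset.range (⌊y⌋₊ + 1)).filter Nat.Prime := by
        rw [Finset.mem_filter, Finset.mem_range]
        exact ⟨by omega, hp1⟩
      exact_mod_cast Finset.dvd_prod_of_mem _ this
    have h1 : (p : ℤ) ∣ (n : ℤ) - b0 := hpP.trans (by simpa using hx3)
    have h2 : (p : ℤ) ∣ (b0 : ℤ) - (clG y p : ℤ) := by
      have := hb0' p hp1 hpy
      exact (Nat.modEq_iff_dvd.mp this.symm)
    have := dvd_add h1 h2
    have e : (n : ℤ) - b0 + ((b0 : ℤ) - (clG y p : ℤ)) = (n : ℤ) - (clG y p : ℤ) := by ring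
    rwa [e] at this
  have hLX : (L : ℝ) ≤ X / 4 := by
    have h1 : (1 : ℝ) ≤ L := by linarith
    nlinarith
  refine ⟨n, hxM', hxX', ?_, fun q r hq hr hqr => ?_⟩
  · have h1 := hsmall 2 Nat.prime_two (by push_cast; linarith)
    have h2 : clG y 2 = 0 := by unfold clG; rw [if_pos rfl]
    rw [h2] at h1
    have h3 : ((2 : ℕ) : ℤ) ∣ ((n : ℕ) : ℤ) := by simpa using h1
    exact (even_iff_two_dvd).mpr (by exact_mod_cast h3)
  · by_contra hcon
    push Not at hcon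
    have hqL : q ≤ L := by rw [hL]; exact Nat.le_floor hcon
    have hqL' : (q : ℝ) ≤ L := by exact_mod_cast hqL
    obtain ⟨h, hh, hh'⟩ : ∃ h : ℤ, (h = q ∨ h = -q) ∧ (r : ℤ) = n - h := by
      rcases hqr with h1 | h1
      · refine ⟨q, Or.inl rfl, ?_⟩
        have : (r : ℤ) + q = n := by exact_mod_cast h1
        linarith
      · refine ⟨-q, Or.inr rfl, ?_⟩
        have : (r : ℤ) = n + q := by exact_mod_cast h1
        linarith
    have hrbig : X / 4 < (r : ℝ) := by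
      have h1 : (r : ℝ) = (n : ℝ) - h := by exact_mod_cast hh'
      have h2 : (h : ℝ) ≤ q := by
        rcases hh with rfl | rfl
        · push_cast; exact le_rfl
        · push_cast; linarith [Nat.cast_nonneg (α := ℝ) q]
      rw [h1]
      linarith
    have hprime : ∀ p : ℕ, p.Prime → (p : ℝ) ≤ X / 4 → ¬ (p : ℤ) ∣ (n : ℤ) - h := by
      intro p hp hpZ hd
      rw [← hh'] at hd
      have h1 : p ∣ r := by exact_mod_cast hd
      have h2 : p = r := (Nat.prime_dvd_prime_iff_eq hp hr).1 h1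
      rw [h2] at hpZ
      linarith
    by_cases hsm : ∀ p : ℕ, p.Prime → (p : ℝ) ≤ y → ¬ ((p : ℤ) ∣ (clG y p : ℤ) - h)
    · have hmem : h ∈ S := by
        rw [hS, Finset.mem_union, Finset.mem_image, Finset.mem_image]
        rcases hh with rfl | rfl
        · left
          refine ⟨q, ?_, rfl⟩
          rw [hT₁, Finset.mem_filter, Finset.mem_range]
          refine ⟨by omega, hq, fun p hp hpy => ?_⟩
          rw [one_mul]
          exact hsm p hp hpy
        · right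
          refine ⟨q, ?_, rfl⟩
          rw [hT₂, Finset.mem_filter, Finset.mem_range]
          refine ⟨by omega, hq, fun p hp hpy => ?_⟩
          rw [neg_one_mul]
          exact hsm p hp hpy
      obtain ⟨p, hp1, hp2, hp3, -, hp4⟩ := hxS ⟨h, hmem⟩
      exact hprime p hp1 (by linarith) (by simpa using hp4)
    · push Not at hsm
      obtain ⟨p, hp1, hp2, hp3⟩ := hsm
      refine hprime p hp1 (by linarith) ?_
      have h4 := dvd_add (hsmall p hp1 hp2) hp3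
      have e : (n : ℤ) - (clG y p : ℤ) + ((clG y p : ℤ) - h) = (n : ℤ) - h := by ring
      rwa [e] at h4

end Pool.Agent.H378R2.PS
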