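import Pool.Agent.Cov.SieveG
import Pool.Agent.H378R2.PS.Defs

set_option autoImplicit false
set_option linter.unusedVariables false

/-! # Selberg's sieve for residue sets with at most four classes (project PS, task P0, helper378)

adapted from Pool.Agent.Cov.SieveG (Starting point). -/

namespace Pool.Agent.H378R2.PS.P0x

open Finset ArithmeticFunction BoundingSieve Pool.Agent.Erdos456.SieveAux
open Pool.Agent.Cov (Fb prime_dvd_Fb dvd_Fb nuE nuE_prime nuE_apply sum_fib count_residues)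

/-- structure of allowed systems of residue sets -/
structure Sys4 (M : ℕ) (E : ℕ → Finset ℕ) : Prop where
  big : ∀ p, p.Prime → ¬ p ∣ M → 17 ≤ p
  sub : ∀ p, p.Prime → ¬ p ∣ M → E p ⊆ range p
  pos : ∀ p, p.Prime → ¬ p ∣ M → 1 ≤ (E p).card
  le : ∀ p, p.Prime → ¬ p ∣ M → (E p).card ≤ 4

noncomputable def sf4 (Y R M : ℕ) (E : ℕ → Finset ℕ) (hS : Sys4 M E) : BoundingSieve where
  support := (Icc 1 Y).image (Fb R M E)
  prodPrimes := PR R M
  prodPrimes_squarefree := PR_squarefree R M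
  weights := fun n => (((Icc 1 Y).filter (fun l => Fb R M E l = n)).card : ℝ)
  weights_nonneg := fun _ => Nat.cast_nonneg _
  totalMass := Y
  nu := nuE E
  nu_mult := IsMultiplicative.prodPrimeFactors _
  nu_pos_of_prime := by
    intro p hp hd
    rw [nuE_prime hp]
    have h1 := ((prime_dvd_PR hp).1 hd).2
    have h2 := hS.pos p hp h1
    have : (0 : ℝ) < p := by exact_mod_cast hp.pos
    have h3 : (0 : ℝ) < ((E p).card : ℝ) := by exact_mod_cast h2
    positivity
  nu_lt_one_of_prime := by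
    intro p hp hd
    rw [nuE_prime hp]
    have h1 := ((prime_dvd_PR hp).1 hd).2
    have h2 := hS.le p hp h1
    have h3 := hS.big p hp h1
    have h3' : (17 : ℝ) ≤ p := by exact_mod_cast h3
    have h2' : ((E p).card : ℝ) ≤ 4 := by exact_mod_cast h2
    rw [div_lt_one (by linarith)]
    linarith

theorem sf_multSum {Y R M d : ℕ} {E : ℕ → Finset ℕ} (hS : Sys4 M E) (hd : d ∣ PR R M) :
    (sf4 Y R M E hS).multSum d
      = (((Icc 1 Y).filter (fun l => ∀ p ∈ d.primeFactors, l % p ∈ E p)).card : ℝ) := by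
  unfold multSum
  show ∑ n ∈ (Icc 1 Y).image (Fb R M E), (if d ∣ n then
      (((Icc 1 Y).filter (fun l => Fb R M E l = n)).card : ℝ) else 0) = _
  rw [sum_fib]
  congr 2
  ext l
  simp only [mem_filter]
  rw [dvd_Fb hd]

theorem sf_rem {Y R M d : ℕ} {E : ℕ → Finset ℕ} (hS : Sys4 M E) (hd : d ∣ PR R M) :
    |(sf4 Y R M E hS).rem d| ≤ d := by
  have hsq : Squarefree d := (PR_squarefree R M).squarefree_of_dvd hd
  have hd0 : d ≠ 0 := hsq.ne_zero
  unfold BoundingSieve.rem
  rw [sf_multSum hS hd]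
  show |_ - nuE E d * (Y : ℝ)| ≤ _
  have hpm : ∀ p ∈ d.primeFactors, p.Prime ∧ ¬ p ∣ M ∧ 17 ≤ p := by
    intro p hp
    rw [Nat.mem_primeFactors] at hp
    have h := (prime_dvd_PR hp.1).1 (hp.2.1.trans hd)
    exact ⟨hp.1, h.2, hS.big p hp.1 h.2⟩
  have h1 := count_residues d.primeFactors (fun p hp => (hpm p hp).1) E
    (fun p hp => hS.sub p (hpm p hp).1 (hpm p hp).2.1) Y
  rw [nuE_apply hd0, mul_comm]
  refine h1.trans ?_
  have h2 : (d : ℝ) = ∏ p ∈ d.primeFactors, (p : ℝ) := by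
    conv_lhs => rw [← Nat.prod_primeFactors_of_squarefree hsq]
    push_cast; rfl
  rw [h2]
  apply Finset.prod_le_prod
  · intro p _; positivity
  · intro p hp
    have h3 := hS.le p (hpm p hp).1 (hpm p hp).2.1
    have h4 := (hpm p hp).2.2
    exact_mod_cast (by omega : (E p).card ≤ p)

theorem sf_terms {Y R M d : ℕ} {E : ℕ → Finset ℕ} (hS : Sys4 M E) (hd : d ∣ PR R M) :
    (sf4 Y R M E hS).selbergTerms d
      = ∏ p ∈ d.primeFactors, ((E p).card : ℝ) / ((p : ℝ) - (E p).card) := by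
  have hsq : Squarefree d := (PR_squarefree R M).squarefree_of_dvd hd
  have hd0 : d ≠ 0 := hsq.ne_zero
  rw [selbergTerms_apply]
  show nuE E d * ∏ p ∈ d.primeFactors, (1 - nuE E p)⁻¹ = _
  rw [nuE_apply hd0, ← Finset.prod_mul_distrib]
  apply Finset.prod_congr rfl
  intro p hp
  rw [Nat.mem_primeFactors] at hp
  have h := (prime_dvd_PR hp.1).1 (hp.2.1.trans hd)
  have h3 := hS.big p hp.1 h.2
  have h2 := hS.le p hp.1 h.2
  have h3' : (17 : ℝ) ≤ p := by exact_mod_cast h3
  have h2' : ((E p).card : ℝ) ≤ 4 := by exact_mod_cast h2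
  rw [nuE_prime hp.1]
  have hp0 : (p : ℝ) ≠ 0 := by linarith
  have hpe : (p : ℝ) - (E p).card ≠ 0 := by linarith
  have h4 : 1 - ((E p).card : ℝ) / p = (p - (E p).card) / p := by field_simp
  rw [h4, inv_div]
  field_simp

theorem sf_g_div_nu {Y R M d : ℕ} {E : ℕ → Finset ℕ} (hS : Sys4 M E) (hd : d ∣ PR R M) :
    (sf4 Y R M E hS).selbergTerms d / (sf4 Y R M E hS).nu d ≤ d := by
  have hsq : Squarefree d := (PR_squarefree R M).squarefree_of_dvd hd
  have hnu : (sf4 Y R M E hS).nu d ≠ 0 := nu_ne_zero (s := sf4 Y R M E hS) hd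
  rw [selbergTerms_apply, mul_comm, mul_div_assoc, div_self hnu, mul_one]
  have h1 : (d : ℝ) = ∏ p ∈ d.primeFactors, (p : ℝ) := by
    conv_lhs => rw [← Nat.prod_primeFactors_of_squarefree hsq]
    push_cast; rfl
  rw [h1]
  apply Finset.prod_le_prod
  · intro p hp
    have hpp := Nat.prime_of_mem_primeFactors hp
    have h2 := (sf4 Y R M E hS).nu_lt_one_of_prime p hpp
      ((Nat.dvd_of_mem_primeFactors hp).trans hd)
    rw [inv_nonneg]; linarith
  · intro p hp
    have hpp := Nat.prime_of_mem_primeFactors hp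
    have hpd := (Nat.dvd_of_mem_primeFactors hp).trans hd
    have h := (prime_dvd_PR hpp).1 hpd
    have h3 := hS.big p hpp h.2
    have h2 := hS.le p hpp h.2
    have h3' : (17 : ℝ) ≤ p := by exact_mod_cast h3
    have h2' : ((E p).card : ℝ) ≤ 4 := by exact_mod_cast h2
    show (1 - nuE E p)⁻¹ ≤ p
    rw [nuE_prime hpp]
    have hp0 : (p : ℝ) ≠ 0 := by linarith
    have h4 : 1 - ((E p).card : ℝ) / p = (p - (E p).card) / p := by field_simp
    rw [h4, inv_div, div_le_iff₀ (by linarith)]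
    nlinarith

theorem sf_sifted {Y R M : ℕ} {E : ℕ → Finset ℕ} (hS : Sys4 M E) (S : Finset ℕ)
    (hSY : S ⊆ Icc 1 Y)
    (hSE : ∀ l ∈ S, ∀ p : ℕ, p.Prime → p ≤ R → ¬ p ∣ M → l % p ∉ E p) :
    (S.card : ℝ) ≤ (sf4 Y R M E hS).siftedSum := by
  classical
  unfold siftedSum
  show _ ≤ ∑ n ∈ (Icc 1 Y).image (Fb R M E), (if Nat.Coprime (PR R M) n then
      (((Icc 1 Y).filter (fun l => Fb R M E l = n)).card : ℝ) else 0)
  rw [sum_fib (fun n => Nat.Coprime (PR R M) n)]
  have h : S ⊆ (Icc 1 Y).filter (fun l => Nat.Coprime (PR R M) (Fb R M E l)) := by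
    intro l hl
    rw [mem_filter]
    refine ⟨hSY hl, ?_⟩
    rw [Nat.coprime_iff_gcd_eq_one]
    by_contra hg
    obtain ⟨p, hp, hpd⟩ := Nat.exists_prime_and_dvd hg
    have h2 := (prime_dvd_Fb hp).1 (hpd.trans (Nat.gcd_dvd_right _ _))
    exact hSE l hl p hp h2.1 h2.2.1 h2.2.2
  exact_mod_cast Finset.card_le_card h

theorem sieve_E4 (Y X M : ℕ) (hX : 1 ≤ X) (E : ℕ → Finset ℕ) (hS : Sys4 M E) (S : Finset ℕ)
    (hSY : S ⊆ Icc 1 Y)
    (hSE : ∀ l ∈ S, ∀ p : ℕ, p.Prime → p ≤ X ^ 2 → ¬ p ∣ M → l % p ∉ E p) :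
    (S.card : ℝ) ≤ (Y : ℝ) / JJ (sf4 Y (X ^ 2) M E hS) (X ^ 2) + (X : ℝ) ^ 12 := by
  have hR1 : 1 ≤ X ^ 2 := Nat.one_le_pow _ _ hX
  have hsel := selberg_bound (s := sf4 Y (X ^ 2) M E hS) (X ^ 2) hR1 (A := ((X ^ 2 : ℕ) : ℝ))
    (B := ((X ^ 2 : ℕ) : ℝ) ^ 2) (by positivity) (by positivity)
    (by
      intro d hd hdR
      refine (sf_g_div_nu hS (Nat.dvd_of_mem_divisors hd)).trans ?_
      exact_mod_cast hdR)
    (by
      intro d hd hdR
      refine (sf_rem hS (Nat.dvd_of_mem_divisors hd)).trans ?_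
      exact_mod_cast hdR)
  refine (sf_sifted hS S hSY hSE).trans (hsel.trans (le_of_eq ?_))
  have e : (sf4 Y (X ^ 2) M E hS).totalMass = (Y : ℝ) := rfl
  rw [e]
  congr 1
  push_cast
  ring

/-- product of `t p` over the primes dividing `l` -/
noncomputable def Tw (t : ℕ → ℝ) (l : ℕ) : ℝ := ∏ p ∈ l.primeFactors, t p

theorem JJ_lower4 {Y R M : ℕ} {E : ℕ → Finset ℕ} (hS : Sys4 M E) :
    ∑ l ∈ SF R M, Tw (fun p => ((E p).card : ℝ)) l / l ≤ JJ (sf4 Y R M E hS) R := by
  set t := sf4 Y R M E hS with ht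
  unfold JJ
  have hsub : SF R M ⊆ (Nat.divisors t.prodPrimes).filter (· ≤ R) := by
    intro l hl
    unfold SF at hl
    rw [mem_filter, mem_Icc] at hl
    rw [mem_filter, Nat.mem_divisors]
    exact ⟨⟨dvd_PR hl.1.2 hl.2.1 hl.2.2, P_ne t⟩, hl.1.2⟩
  calc ∑ l ∈ SF R M, Tw (fun p => ((E p).card : ℝ)) l / l
      ≤ ∑ l ∈ SF R M, t.selbergTerms l := by
        apply Finset.sum_le_sum
        intro l hl
        have hl' := hsub hl
        rw [mem_filter] at hl'
        have hlP := Nat.dvd_of_mem_divisors hl'.1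
        have hsq : Squarefree l := by
          unfold SF at hl
          rw [mem_filter] at hl
          exact hl.2.1
        rw [ht, sf_terms hS hlP]
        have e1 : (l : ℝ) = ∏ p ∈ l.primeFactors, (p : ℝ) := by
          conv_lhs => rw [← Nat.prod_primeFactors_of_squarefree hsq]
          push_cast; rfl
        unfold Tw
        rw [e1, ← Finset.prod_div_distrib]
        apply Finset.prod_le_prod
        · intro p _; positivity
        · intro p hp
          have hpp := Nat.prime_of_mem_primeFactors hp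
          have hpd := (Nat.dvd_of_mem_primeFactors hp).trans hlP
          have h := (prime_dvd_PR hpp).1 hpd
          have h3 := hS.big p hpp h.2
          have h2 := hS.le p hpp h.2
          have h3' : (17 : ℝ) ≤ p := by exact_mod_cast h3
          have h2' : ((E p).card : ℝ) ≤ 4 := by exact_mod_cast h2
          have h0 : (0 : ℝ) ≤ ((E p).card : ℝ) := Nat.cast_nonneg _
          apply div_le_div_of_nonneg_left h0 (by linarith) (by linarith)
    _ ≤ _ := by
        apply Finset.sum_le_sum_of_subset_of_nonneg hsub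
        intro l hl _
        exact (g_pos (mem_filter.1 hl).1).le

end Pool.Agent.H378R2.PS.P0x
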