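import Pool.Agent.H378R2.PS.P0a

set_option autoImplicit false
set_option linter.unusedVariables false

/-! # P0: multiplication lemma (project PS, helper378) -/

namespace Pool.Agent.H378R2.PS.P0x

open Finset ArithmeticFunction Pool.Agent.Erdos456.SieveAux

theorem Tw_nonneg {t : ℕ → ℝ} (ht : ∀ p, 0 ≤ t p) (l : ℕ) : 0 ≤ Tw t l :=
  Finset.prod_nonneg fun p _ => ht p

theorem Tw_mul {t : ℕ → ℝ} {a b : ℕ} (h : Nat.Coprime a b) : Tw t (a * b) = Tw t a * Tw t b := by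
  unfold Tw
  rw [Nat.Coprime.primeFactors_mul h, Finset.prod_union h.disjoint_primeFactors]

theorem Tw_mono {t t' : ℕ → ℝ} (ht : ∀ p, 0 ≤ t p) (h : ∀ p, t p ≤ t' p) (l : ℕ) :
    Tw t l ≤ Tw t' l :=
  Finset.prod_le_prod (fun p _ => ht p) (fun p _ => h p)

/-- the constant -/
noncomputable def C0 : ℝ := ∑' n : ℕ, 1 / (n : ℝ) ^ (3 / 2 : ℝ)

theorem C0_pos : 0 < C0 := by
  unfold C0
  have hs : Summable (fun n : ℕ => 1 / (n : ℝ) ^ (3 / 2 : ℝ)) :=
    Real.summable_one_div_nat_rpow.mpr (by norm_num)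
  exact hs.tsum_pos (fun n => by positivity) 1 (by norm_num)

theorem sum_Tw_le {v M : ℕ} {t : ℕ → ℝ} (ht : ∀ p, 0 ≤ t p ∧ t p ≤ 4)
    (hM : ∀ p, p.Prime → ¬ p ∣ M → 17 ≤ p) :
    ∑ g ∈ SF v M, Tw t g / (g : ℝ) ^ 2 ≤ C0 := by
  have hs : Summable (fun n : ℕ => 1 / (n : ℝ) ^ (3 / 2 : ℝ)) :=
    Real.summable_one_div_nat_rpow.mpr (by norm_num)
  refine le_trans ?_ (hs.sum_le_tsum (SF v M) (fun n _ => by positivity))
  apply Finset.sum_le_sum
  intro g hg
  unfold SF at hg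
  rw [mem_filter, mem_Icc] at hg
  obtain ⟨⟨hg1, -⟩, hg2, hg3⟩ := hg
  have hg0 : (0 : ℝ) < g := by exact_mod_cast hg1
  have h1 : (Tw t g) ^ 2 ≤ g := by
    have e1 : (g : ℝ) = ∏ p ∈ g.primeFactors, (p : ℝ) := by
      conv_lhs => rw [← Nat.prod_primeFactors_of_squarefree hg2]
      push_cast; rfl
    unfold Tw
    rw [e1, ← Finset.prod_pow]
    apply Finset.prod_le_prod
    · intro p _; positivity
    · intro p hp
      have hpp := Nat.prime_of_mem_primeFactors hp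
      have hpM : ¬ p ∣ M := by
        intro hd
        have := Nat.dvd_gcd (Nat.dvd_of_mem_primeFactors hp) hd
        rw [hg3] at this
        exact hpp.one_lt.ne' (Nat.dvd_one.mp this)
      have h17 : (17 : ℝ) ≤ p := by exact_mod_cast hM p hpp hpM
      have := ht p
      nlinarith
  have h2 : Tw t g ≤ (g : ℝ) ^ (1 / 2 : ℝ) := by
    rw [← Real.sqrt_eq_rpow]
    exact Real.le_sqrt_of_sq_le h1
  have h3 : (g : ℝ) ^ (3 / 2 : ℝ) * (g : ℝ) ^ (1 / 2 : ℝ) = (g : ℝ) ^ 2 := by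
    rw [← Real.rpow_add hg0, ← Real.rpow_natCast]
    norm_num
  rw [div_le_div_iff₀ (by positivity) (by positivity), one_mul, ← h3]
  have h4 : 0 ≤ (g : ℝ) ^ (3 / 2 : ℝ) := by positivity
  nlinarith

/-- the indicator of the `v`-smooth numbers -/
noncomputable def sm (v : ℕ) (p : ℕ) : ℝ := if p ≤ v then 1 else 0

theorem sm_one {v y : ℕ} (hy : y ≤ v) : Tw (sm v) y = 1 := by
  unfold Tw
  apply Finset.prod_eq_one
  intro p hp
  unfold sm
  rw [if_pos]
  exact (Nat.le_of_mem_primeFactors hp).trans hy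

theorem conv_eq (t : ℕ → ℝ) (v : ℕ) {m : ℕ} (hm : Squarefree m) :
    ∑ x ∈ Nat.divisorsAntidiagonal m, Tw t x.1 * Tw (sm v) x.2 =
      Tw (fun p => t p + sm v p) m := by
  have h := IsMultiplicative.prodPrimeFactors_add_of_squarefree (R := ℝ)
    (IsMultiplicative.prodPrimeFactors t) (IsMultiplicative.prodPrimeFactors (sm v)) hm
  rw [prodPrimeFactors_apply hm.ne_zero, mul_apply] at h
  unfold Tw
  have e1 : ∑ x ∈ Nat.divisorsAntidiagonal m, (∏ p ∈ x.1.primeFactors, t p) *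
      (∏ p ∈ x.2.primeFactors, sm v p) =
      ∑ x ∈ Nat.divisorsAntidiagonal m, (prodPrimeFactors t) x.1 * (prodPrimeFactors (sm v)) x.2 := by
    apply Finset.sum_congr rfl
    intro x hx
    rw [Nat.mem_divisorsAntidiagonal] at hx
    have h1 : x.1 ≠ 0 := by
      intro h0
      rw [h0, zero_mul] at hx
      exact hx.2 hx.1.symm
    have h2 : x.2 ≠ 0 := by
      intro h0
      rw [h0, mul_zero] at hx
      exact hx.2 hx.1.symm
    rw [prodPrimeFactors_apply h1, prodPrimeFactors_apply h2]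
  rw [e1, ← h]
  apply Finset.prod_congr rfl
  intro p hp
  have hpp := Nat.prime_of_mem_primeFactors hp
  rw [ArithmeticFunction.add_apply, prodPrimeFactors_apply hpp.ne_zero, prodPrimeFactors_apply hpp.ne_zero,
    hpp.primeFactors, Finset.prod_singleton, Finset.prod_singleton]

theorem mul_step (v R M : ℕ) (t t' : ℕ → ℝ) (ht : ∀ p, 0 ≤ t p ∧ t p ≤ 4)
    (h1 : ∀ p, p ≤ v → t p + 1 ≤ t' p) (h2 : ∀ p, t p ≤ t' p)
    (hM : ∀ p, p.Prime → ¬ p ∣ M → 17 ≤ p) :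
    U v M * ∑ l ∈ SF R M, Tw t l / l ≤ C0 * ∑ m ∈ SF (v * R) M, Tw t' m / m := by
  classical
  have ht0 : ∀ p, 0 ≤ t p := fun p => (ht p).1
  have hsm0 : ∀ p, 0 ≤ sm v p := fun p => by unfold sm; split_ifs <;> norm_num
  have h0 : U v M * ∑ l ∈ SF R M, Tw t l / l =
      ∑ x ∈ (SF v M) ×ˢ (SF R M), (1 : ℝ) / x.1 * (Tw t x.2 / (x.2 : ℝ)) := by
    unfold U
    rw [Finset.sum_mul_sum, Finset.sum_product]
  have h3 : ∑ x ∈ (SF v M) ×ˢ (SF R M), (1 : ℝ) / x.1 * (Tw t x.2 / (x.2 : ℝ)) ≤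
      ∑ s ∈ (SF v M) ×ˢ ((SF (v * R) M).sigma fun m => Nat.divisorsAntidiagonal m),
        (Tw t s.1 / (s.1 : ℝ) ^ 2) * (Tw t s.2.2.1 * Tw (sm v) s.2.2.2 / (s.2.1 : ℝ)) := by
    apply sum_le_of_inj (fun x : ℕ × ℕ => (Nat.gcd x.1 x.2,
      (⟨(x.2 / Nat.gcd x.1 x.2) * (x.1 / Nat.gcd x.1 x.2),
        (x.2 / Nat.gcd x.1 x.2, x.1 / Nat.gcd x.1 x.2)⟩ : (_ : ℕ) × (ℕ × ℕ))))
    · rintro ⟨a, b⟩ hab
      simp only [mem_product, SF, mem_filter, mem_Icc] at hab
      obtain ⟨⟨⟨ha1, ha2⟩, ha3, ha4⟩, ⟨hb1, hb2⟩, hb3, hb4⟩ := hab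
      have hga : Nat.gcd a b ∣ a := Nat.gcd_dvd_left _ _
      have hgb : Nat.gcd a b ∣ b := Nat.gcd_dvd_right _ _
      have hg0 : 0 < Nat.gcd a b := Nat.gcd_pos_of_pos_left _ ha1
      have hda : 0 < a / Nat.gcd a b := Nat.div_pos (Nat.le_of_dvd ha1 hga) hg0
      have hdb : 0 < b / Nat.gcd a b := Nat.div_pos (Nat.le_of_dvd hb1 hgb) hg0
      have hcop : Nat.Coprime (a / Nat.gcd a b) (b / Nat.gcd a b) := Nat.coprime_div_gcd_div_gcd hg0
      simp only [mem_product, mem_sigma, mem_Icc, SF, mem_filter, Nat.mem_divisorsAntidiagonal]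
      refine ⟨⟨⟨hg0, (Nat.le_of_dvd ha1 hga).trans ha2⟩, ha3.squarefree_of_dvd hga,
        Nat.Coprime.coprime_dvd_left hga ha4⟩, ⟨⟨Nat.mul_pos hdb hda, ?_⟩, ?_, ?_⟩, ?_⟩
      · rw [Nat.mul_comm v R]
        exact Nat.mul_le_mul ((Nat.div_le_self _ _).trans hb2) ((Nat.div_le_self _ _).trans ha2)
      · rw [Nat.squarefree_mul_iff]
        exact ⟨hcop.symm, hb3.squarefree_of_dvd (Nat.div_dvd_of_dvd hgb),
          ha3.squarefree_of_dvd (Nat.div_dvd_of_dvd hga)⟩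
      · exact Nat.Coprime.mul_left (Nat.Coprime.coprime_dvd_left (Nat.div_dvd_of_dvd hgb) hb4)
          (Nat.Coprime.coprime_dvd_left (Nat.div_dvd_of_dvd hga) ha4)
      · exact ⟨trivial, (Nat.mul_pos hdb hda).ne'⟩
    · rintro ⟨a, b⟩ _ ⟨c, d⟩ _ h
      simp only [Prod.mk.injEq, Sigma.mk.injEq, heq_eq_eq] at h
      obtain ⟨h1, -, h3, h2⟩ := h
      have e1 := Nat.mul_div_cancel' (Nat.gcd_dvd_left a b)
      have e2 := Nat.mul_div_cancel' (Nat.gcd_dvd_right a b)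
      have e3 := Nat.mul_div_cancel' (Nat.gcd_dvd_left c d)
      have e4 := Nat.mul_div_cancel' (Nat.gcd_dvd_right c d)
      rw [Prod.mk.injEq]
      constructor
      · rw [← e1, ← e3, h2, h1]
      · rw [← e2, ← e4, h3, h1]
    · rintro ⟨a, b⟩ hab
      simp only [mem_product, SF, mem_filter, mem_Icc] at hab
      obtain ⟨⟨⟨ha1, ha2⟩, ha3, ha4⟩, ⟨hb1, hb2⟩, hb3, hb4⟩ := hab
      have hga : Nat.gcd a b ∣ a := Nat.gcd_dvd_left _ _
      have hgb : Nat.gcd a b ∣ b := Nat.gcd_dvd_right _ _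
      have hg0 : 0 < Nat.gcd a b := Nat.gcd_pos_of_pos_left _ ha1
      apply le_of_eq
      simp only
      have e1 : (a : ℝ) = (Nat.gcd a b : ℝ) * ((a / Nat.gcd a b : ℕ) : ℝ) := by
        exact_mod_cast (Nat.mul_div_cancel' (Nat.gcd_dvd_left a b)).symm
      have e2 : (b : ℝ) = (Nat.gcd a b : ℝ) * ((b / Nat.gcd a b : ℕ) : ℝ) := by
        exact_mod_cast (Nat.mul_div_cancel' (Nat.gcd_dvd_right a b)).symm
      have e3 : Tw (sm v) (a / Nat.gcd a b) = 1 := sm_one ((Nat.div_le_self _ _).trans ha2)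
      have hcop : Nat.Coprime (Nat.gcd a b) (b / Nat.gcd a b) := by
        have e5 : Nat.gcd a b * (b / Nat.gcd a b) = b := Nat.mul_div_cancel' hgb
        apply Nat.coprime_of_squarefree_mul
        rw [e5]; exact hb3
      have e4 : Tw t b = Tw t (Nat.gcd a b) * Tw t (b / Nat.gcd a b) := by
        rw [← Tw_mul hcop, Nat.mul_div_cancel' hgb]
      rw [e3, e4]
      conv_lhs => rw [e1, e2]
      push_cast
      simp only [one_div, mul_inv, div_eq_mul_inv]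
      ring
    · intro s _
      have := Tw_nonneg ht0 s.1
      have := Tw_nonneg ht0 s.2.2.1
      have := Tw_nonneg hsm0 s.2.2.2
      positivity
  rw [h0]
  refine h3.trans ?_
  rw [Finset.sum_product]
  have h4 : ∀ c ∈ SF v M, ∑ s ∈ (SF (v * R) M).sigma fun m => Nat.divisorsAntidiagonal m,
      (Tw t c / (c : ℝ) ^ 2) * (Tw t s.2.1 * Tw (sm v) s.2.2 / (s.1 : ℝ))
      = (Tw t c / (c : ℝ) ^ 2) * ∑ m ∈ SF (v * R) M, Tw (fun p => t p + sm v p) m / m := by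
    intro c _
    rw [← Finset.mul_sum, Finset.sum_sigma]
    congr 1
    apply Finset.sum_congr rfl
    intro m hm
    have hmsq : Squarefree m := by
      unfold SF at hm
      rw [mem_filter] at hm
      exact hm.2.1
    simp only
    rw [← Finset.sum_div, conv_eq t v hmsq]
  rw [Finset.sum_congr rfl h4, ← Finset.sum_mul]
  have h5 := sum_Tw_le (v := v) ht hM
  have h6 : ∑ m ∈ SF (v * R) M, Tw (fun p => t p + sm v p) m / m ≤
      ∑ m ∈ SF (v * R) M, Tw t' m / m := by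
    apply Finset.sum_le_sum
    intro m _
    apply div_le_div_of_nonneg_right _ (Nat.cast_nonneg _)
    apply Tw_mono
    · intro p
      have := ht0 p
      have := hsm0 p
      linarith
    · intro p
      unfold sm
      split_ifs with h
      · exact h1 p h
      · rw [add_zero]; exact h2 p
  have h7 : 0 ≤ ∑ m ∈ SF (v * R) M, Tw (fun p => t p + sm v p) m / m := by
    apply Finset.sum_nonneg
    intro m _
    apply div_nonneg _ (Nat.cast_nonneg _)
    apply Tw_nonneg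
    intro p
    have := ht0 p
    have := hsm0 p
    linarith
  have hC := C0_pos
  calc _ ≤ C0 * ∑ m ∈ SF (v * R) M, Tw (fun p => t p + sm v p) m / m :=
        mul_le_mul_of_nonneg_right h5 h7
    _ ≤ _ := mul_le_mul_of_nonneg_left h6 hC.le

end Pool.Agent.H378R2.PS.P0x
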