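import Pool.Agent.H378R2.PS.Defs

set_option autoImplicit false
set_option linter.unusedVariables false

/-! # Project PS: stubs (never import this file in a hand-in) -/

namespace Pool.Agent.H378R2.PS.Stubs

open Pool.Agent.H378R2.PS

/-- P0: Selberg's sieve, residue classes `E p`, `2 + j` of them for `p ≤ w`, two for `p > w` -/
theorem sieve_gen (j : ℕ) (hj : j = 1 ∨ j = 2) : ∃ C : ℝ, 0 < C ∧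
    ∀ (Y M w : ℕ) (E : ℕ → Finset ℕ) (S : Finset ℕ), M ≠ 0 →
    (∀ p : ℕ, p.Prime → ¬ p ∣ M → 17 ≤ p ∧ E p ⊆ Finset.range p ∧
      (p ≤ w → (E p).card = 2 + j) ∧ (w < p → (E p).card = 2)) →
    2 ≤ w → (w : ℝ) ≤ (Y : ℝ) ^ (1 / 64 : ℝ) → S ⊆ Finset.Icc 1 Y →
    (∀ l ∈ S, ∀ p : ℕ, p.Prime → ¬ p ∣ M → (p : ℝ) ≤ (Y : ℝ) ^ (1 / 8 : ℝ) → l % p ∉ E p) →
    (S.card : ℝ) ≤ C * ((M : ℝ) / (M.totient : ℝ)) ^ 4 * Y / ((Real.log Y) ^ 2 * (Real.log w) ^ j) := by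
  sorry

/-- P1: `m - 1 = a q`, `m + 1 = b q'` with primes, `m - 2`, `m + 2` without prime factors in `[5, w]` -/
theorem sieve_four : ∃ C : ℝ, 0 < C ∧ ∀ (a b R w : ℕ), 0 < a → 0 < b → 2 ≤ w →
    (w : ℝ) ≤ (R : ℝ) ^ (1 / 128 : ℝ) → ((a : ℝ) * b) ≤ (R : ℝ) ^ (1 / 4 : ℝ) →
    ∀ S : Finset ℕ, (∀ m ∈ S, 3 ≤ m ∧ m ≤ R ∧
      (∃ q : ℕ, q.Prime ∧ m - 1 = a * q) ∧ (∃ q : ℕ, q.Prime ∧ m + 1 = b * q) ∧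
      ∀ p : ℕ, p.Prime → 5 ≤ p → p ≤ w → ¬ (p ∣ (m - 2)) ∧ ¬ (p ∣ (m + 2))) →
    (S.card : ℝ) ≤ C * ((a : ℝ) / (Nat.totient a : ℝ)) ^ 4 * ((b : ℝ) / (Nat.totient b : ℝ)) ^ 4 *
      R / (a * b * ((Real.log R) ^ 2 * (Real.log w) ^ 2)) := by
  sorry

/-- P2 -/
theorem sum_ratio4 : ∃ C : ℝ, 0 < C ∧ ∀ M : ℕ, 2 ≤ M →
    ∑ m ∈ Finset.Icc 1 M, ((m : ℝ) / (Nat.totient m : ℝ)) ^ 4 / m ≤ C * Real.log M := by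
  sorry

open Classical in
/-- P3 -/
theorem smooth8 : ∃ y₀ : ℝ, ∀ y : ℝ, y₀ ≤ y → ∀ L : ℕ, y ≤ L →
    (((Finset.Icc 1 L).filter (fun m : ℕ => ∀ p : ℕ, p.Prime → p ∣ m →
      Real.log p ≤ V1 y)).card : ℝ) ≤ L / (Real.log y) ^ 8 := by
  sorry

/-- P4 -/
theorem surv : ∃ C : ℝ, 0 < C ∧ ∃ y₀ : ℝ, ∀ y : ℝ, y₀ ≤ y → ∀ R : ℕ, y ≤ R →
    (R : ℝ) ≤ y * (Real.log y) ^ 5 → ∀ S : Finset ℕ, (∀ m ∈ S, 3 ≤ m ∧ m ≤ R ∧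
      (∀ p : ℕ, p.Prime → 5 ≤ p → Real.log p ≤ V1 y → ¬ (p ∣ (m - 2)) ∧ ¬ (p ∣ (m + 2))) ∧
      (∀ p : ℕ, p.Prime → V1 y < Real.log p → (p : ℝ) ≤ y → ¬ (p ∣ (m - 1)) ∧ ¬ (p ∣ (m + 1)))) →
    (S.card : ℝ) ≤ C * R * (Real.log (Real.log y)) ^ 4 /
        ((Real.log y) ^ 4 * (Real.log (Real.log (Real.log y))) ^ 2) := by
  sorry

/-- P5: `q` prime, `q - s = n l` with `l` prime, `q - 2 s` without prime factors in `[5, w]` -/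
theorem sieve_three : ∃ C : ℝ, 0 < C ∧ ∀ (n R w : ℕ) (s : ℤ), (s = 1 ∨ s = -1) → 0 < n → 2 ≤ w →
    (w : ℝ) ≤ (R : ℝ) ^ (1 / 128 : ℝ) → (n : ℝ) ≤ (R : ℝ) ^ (1 / 4 : ℝ) →
    ∀ S : Finset ℕ, (∀ q ∈ S, q.Prime ∧ q ≤ R ∧ (∃ l : ℕ, l.Prime ∧ (q : ℤ) - s = n * l) ∧
      ∀ p : ℕ, p.Prime → 5 ≤ p → p ≤ w → ¬ ((p : ℤ) ∣ (q : ℤ) - 2 * s)) →
    (S.card : ℝ) ≤ C * ((n : ℝ) / (Nat.totient n : ℝ)) ^ 4 *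
      R / (n * ((Real.log R) ^ 2 * Real.log w)) := by
  sorry

/-- P6 -/
theorem survG (s : ℤ) (hs : s = 1 ∨ s = -1) : ∃ C : ℝ, 0 < C ∧ ∃ y₀ : ℝ, ∀ y : ℝ, y₀ ≤ y →
    ∀ R : ℕ, y ≤ R → (R : ℝ) ≤ y * (Real.log y) ^ 4 → ∀ S : Finset ℕ,
    (∀ q ∈ S, q.Prime ∧ 5 ≤ q ∧ q ≤ R ∧
      (∀ p : ℕ, p.Prime → 5 ≤ p → Real.log p ≤ V1 y → ¬ ((p : ℤ) ∣ (q : ℤ) - 2 * s)) ∧
      (∀ p : ℕ, p.Prime → V1 y < Real.log p → (p : ℝ) ≤ y → ¬ ((p : ℤ) ∣ (q : ℤ) - s))) →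
    (S.card : ℝ) ≤ C * R * (Real.log (Real.log y)) ^ 2 /
        ((Real.log y) ^ 3 * Real.log (Real.log (Real.log y))) := by
  sorry

end Pool.Agent.H378R2.PS.Stubs
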